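import Mathlib

/-!
# Birational trivializations of families over the affine line (definitions)
-/

set_option autoImplicit false

namespace Pool.Agent.X329.Triv

open MvPolynomial

/-- The projective space of dimension `n` over `k`. -/
abbrev PP (k : Type*) [Field k] (n : ℕ) : Type _ := Projectivization k (Fin (n + 1) → k)

/-- `v` is a vector of homogeneous coordinates of the point `p`. -/
def Rep {k : Type*} [Field k] {n : ℕ} (p : PP k n) (v : Fin (n + 1) → k) : Prop :=
  ∃ h : v ≠ 0, Projectivization.mk k v h = p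

/-! ### Birational projective varieties -/

/-- `U` is open in the Zariski topology of `P ^ n`: its complement is the set of the common zeros of
a set of homogeneous polynomials. -/
def IsZariskiOpen {k : Type*} [Field k] {n : ℕ} (U : Set (PP k n)) : Prop :=
  ∃ I : Set (MvPolynomial (Fin (n + 1)) k), (∀ F ∈ I, ∃ d, F.IsHomogeneous d) ∧
    U = {p | ∃ F ∈ I, eval p.rep F ≠ 0}

/-- `f` is a morphism on the locally closed subset `Y` of `P ^ n` with values in `P ^ m`: every
point of `Y` has homogeneous polynomials `F_0, ..., F_m` of the same degree, not all zero at the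
point, such that `f = (F_0 : ... : F_m)` at the points of `Y` where they are not all zero. -/
def IsMorphism {k : Type*} [Field k] {n m : ℕ} (Y : Set (PP k n)) (f : PP k n → PP k m) : Prop :=
  ∀ y ∈ Y, ∃ (d : ℕ) (F : Fin (m + 1) → MvPolynomial (Fin (n + 1)) k),
    (∀ j, (F j).IsHomogeneous d) ∧ (∃ j, eval y.rep (F j) ≠ 0) ∧
      ∀ z ∈ Y, (∃ j, eval z.rep (F j) ≠ 0) → Rep (f z) (fun j => eval z.rep (F j))

/-- The closed subsets `X ⊆ P ^ n` and `Y ⊆ P ^ m` are birational: there are nonempty open subsets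
`U ∩ X` of `X` and `V ∩ Y` of `Y` and morphisms between them which are inverse to each other. -/
def AreBirational {k : Type*} [Field k] {n m : ℕ} (X : Set (PP k n)) (Y : Set (PP k m)) : Prop :=
  ∃ (U : Set (PP k n)) (V : Set (PP k m)) (f : PP k n → PP k m) (g : PP k m → PP k n),
    IsZariskiOpen U ∧ IsZariskiOpen V ∧ (U ∩ X).Nonempty ∧ (V ∩ Y).Nonempty ∧
    IsMorphism (U ∩ X) f ∧ IsMorphism (V ∩ Y) g ∧
    (∀ x ∈ U ∩ X, f x ∈ V ∩ Y ∧ g (f x) = x) ∧ ∀ y ∈ V ∩ Y, g y ∈ U ∩ X ∧ f (g y) = y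

/-! ### Products `k ^ M × P ^ n` -/

/-- The polynomials in the coordinates `β_1, ..., β_M` of the affine space `k ^ M` (indices
`Sum.inl i`) and the homogeneous coordinates `x_0, ..., x_n` of `P ^ n` (indices `Sum.inr i`). -/
abbrev Poly (k : Type*) [Field k] (M n : ℕ) : Type _ := MvPolynomial (Fin M ⊕ Fin (n + 1)) k

/-- `F` is homogeneous of degree `d` in the `x_i`: every monomial of `F` has degree `d` in
the `x_i`. -/
def IsHom {k : Type*} [Field k] {M n : ℕ} (F : Poly k M n) (d : ℕ) : Prop :=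
  ∀ m ∈ F.support, ∑ i, m (Sum.inr i) = d

/-- The value of `F` at the point `z` of `k ^ M × P ^ n`, for the chosen vector of homogeneous
coordinates. -/
noncomputable def ev {k : Type*} [Field k] {M n : ℕ} (z : (Fin M → k) × PP k n) (F : Poly k M n) :
    k :=
  eval (Sum.elim z.1 z.2.rep) F

/-- `O` is open in the Zariski topology of `k ^ M × P ^ n`: its complement is the set of the common
zeros of a set of polynomials which are homogeneous in the `x_i`. -/
def IsOpenProd {k : Type*} [Field k] {M n : ℕ} (O : Set ((Fin M → k) × PP k n)) : Prop :=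
  ∃ I : Set (Poly k M n), (∀ F ∈ I, ∃ d, IsHom F d) ∧ O = {z | ∃ F ∈ I, ev z F ≠ 0}

/-- `f` is a morphism on the locally closed subset `Y` of `k ^ M × P ^ n` with values
in `P ^ m`. -/
def IsMorphismProd {k : Type*} [Field k] {M n m : ℕ} (Y : Set ((Fin M → k) × PP k n))
    (f : (Fin M → k) × PP k n → PP k m) : Prop :=
  ∀ y ∈ Y, ∃ (d : ℕ) (F : Fin (m + 1) → Poly k M n), (∀ j, IsHom (F j) d) ∧
    (∃ j, ev y (F j) ≠ 0) ∧
      ∀ z ∈ Y, (∃ j, ev z (F j) ≠ 0) → Rep (f z) (fun j => ev z (F j))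

/-! ### Trivializations -/

/-- `B` is an irreducible affine variety (irreducible closed subset of `k ^ M`, for algebraically
closed `k`): the zero locus of a prime ideal. -/
def IsAffineVariety {k : Type*} [Field k] {M : ℕ} (B : Set (Fin M → k)) : Prop :=
  ∃ I : Ideal (MvPolynomial (Fin M) k), I.IsPrime ∧ B = zeroLocus k I

/-- The base change `{(β, p) | β ∈ B', p ∈ X_{π (β)}}` to `B'` of the family of the subsets `X_b`
of `P ^ n` parametrised by `b ∈ k`. -/
def baseChange {k : Type*} [Field k] {M n : ℕ} (X : k → Set (PP k n)) (B' : Set (Fin M → k))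
    (π : MvPolynomial (Fin M) k) : Set ((Fin M → k) × PP k n) :=
  {z | z.1 ∈ B' ∧ z.2 ∈ X (eval z.1 π)}

/-- The family of the closed subsets `X_a` of `P ^ n` parametrised by the affine line (`a ∈ k`) has
a birational trivialization at `b` with fibre `Z ⊆ P ^ m`, after a base change `π : B' → k` of which
it is only asked that `B'` is an irreducible affine variety and `π` is a nonconstant regular
function on `B'` with `π (b') = b`: there are an open subset
`O ∩ (X ×_k B')` of the base change, which meets the fibre over `b'` (so it is an open neighbourhood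
of the generic point of this fibre), an open subset `O' ∩ (B' × Z)` of `B' × Z` and mutually inverse
isomorphisms `(β, p) ↦ (β, φ (β, p))` and `(β, q) ↦ (β, ψ (β, q))` over `B'` between them. -/
def HasTrivialization {k : Type*} [Field k] {n m : ℕ} (X : k → Set (PP k n)) (Z : Set (PP k m))
    (b : k) : Prop :=
  ∃ (M : ℕ) (B' : Set (Fin M → k)) (π : MvPolynomial (Fin M) k) (b' : Fin M → k)
    (O : Set ((Fin M → k) × PP k n)) (O' : Set ((Fin M → k) × PP k m))
    (φ : (Fin M → k) × PP k n → PP k m) (ψ : (Fin M → k) × PP k m → PP k n),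
    IsAffineVariety B' ∧ b' ∈ B' ∧ eval b' π = b ∧ (∃ β ∈ B', eval β π ≠ b) ∧
    IsOpenProd O ∧ IsOpenProd O' ∧ (∃ p, (b', p) ∈ O ∩ baseChange X B' π) ∧
    IsMorphismProd (O ∩ baseChange X B' π) φ ∧ IsMorphismProd (O' ∩ B' ×ˢ Z) ψ ∧
    (∀ z ∈ O ∩ baseChange X B' π, (z.1, φ z) ∈ O' ∩ B' ×ˢ Z ∧ ψ (z.1, φ z) = z.2) ∧
    ∀ z ∈ O' ∩ B' ×ˢ Z, (z.1, ψ z) ∈ O ∩ baseChange X B' π ∧ φ (z.1, ψ z) = z.2

/-! ### The family -/

/-- The polynomial `x_0 ^ 2 x_3 ^ 4 - ((x_1 ^ 2 - b x_2 x_3) ^ 3 - x_3 ^ 4 (x_1 ^ 2 - b x_2 x_3))`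
over a commutative ring. -/
noncomputable def poly {A : Type*} [CommRing A] (b : A) : MvPolynomial (Fin 4) A :=
  X 0 ^ 2 * X 3 ^ 4 -
    ((X 1 ^ 2 - C b * X 2 * X 3) ^ 3 - X 3 ^ 4 * (X 1 ^ 2 - C b * X 2 * X 3))

/-- The hypersurface `poly b = 0` of degree six in `P ^ 3`. In affine coordinates
(`p = x_0`, `x = x_1`, `s = x_2`, `x_3 = 1`): `p ^ 2 = q ^ 3 - q` with `q = x ^ 2 - b s`. -/
def fib {k : Type*} [Field k] (b : k) : Set (PP k 3) :=
  {p | eval p.rep (poly b) = 0}

end Pool.Agent.X329.Triv
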