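import Mathlib
import Pool.Agent.X329.Triv.Defs

/-!
# The equation of the family is irreducible
-/

set_option autoImplicit false
set_option linter.unusedSectionVars false

namespace Pool.Agent.X329.Triv

open MvPolynomial

/-- A quadratic polynomial `w ^ 4 T ^ 2 - Q` over a factorial ring is irreducible if `w` and `Q` have
no common factor and `Q` is not a square. -/
theorem irreducible_quad {R : Type*} [CommRing R] [IsDomain R] [UniqueFactorizationMonoid R]
    {w Q : R} (hw : w ≠ 0) (hrel : IsRelPrime (w ^ 4) Q) (hsq : ∀ t : R, t ^ 2 ≠ Q) :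
    Irreducible (Polynomial.C (w ^ 4) * Polynomial.X ^ 2 - Polynomial.C Q : Polynomial R) := by
  have hdeg : (Polynomial.C (w ^ 4) * Polynomial.X ^ 2 - Polynomial.C Q : Polynomial R).natDegree
      = 2 := by
    have h4 : w ^ 4 ≠ 0 := pow_ne_zero _ hw
    compute_degree!
  set f : Polynomial R := Polynomial.C (w ^ 4) * Polynomial.X ^ 2 - Polynomial.C Q with hf
  have hf0 : f ≠ 0 := by
    intro h
    rw [h] at hdeg
    simp at hdeg
  have hc2 : f.coeff 2 = w ^ 4 := by
    rw [hf]
    generalize w ^ 4 = a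
    simp [Polynomial.coeff_C]
  have hc0 : f.coeff 0 = - Q := by
    simp [hf]
  have hc1 : f.coeff 1 = 0 := by
    rw [hf]
    generalize w ^ 4 = a
    simp [Polynomial.coeff_C, Polynomial.coeff_X_pow]
  have hunit : ∀ c : R, Polynomial.C c ∣ f → IsUnit c := by
    intro c hc
    rw [Polynomial.C_dvd_iff_dvd_coeff] at hc
    have h1 := hc 2
    have h2 := hc 0
    rw [hc2] at h1
    rw [hc0, dvd_neg] at h2
    exact hrel h1 h2
  constructor
  · intro h
    have := Polynomial.natDegree_eq_zero_of_isUnit h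
    omega
  · intro a b hab
    have ha0 : a ≠ 0 := by
      rintro rfl
      rw [zero_mul] at hab
      exact hf0 hab
    have hb0 : b ≠ 0 := by
      rintro rfl
      rw [mul_zero] at hab
      exact hf0 hab
    have hsum : a.natDegree + b.natDegree = 2 := by
      rw [← Polynomial.natDegree_mul ha0 hb0, ← hab, hdeg]
    by_cases h1 : a.natDegree = 0
    · left
      rw [Polynomial.eq_C_of_natDegree_eq_zero h1] at hab ⊢
      exact Polynomial.isUnit_C.2 (hunit _ ⟨_, hab⟩)
    by_cases h2 : b.natDegree = 0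
    · right
      rw [Polynomial.eq_C_of_natDegree_eq_zero h2, mul_comm] at hab
      rw [Polynomial.eq_C_of_natDegree_eq_zero h2]
      exact Polynomial.isUnit_C.2 (hunit _ ⟨_, hab⟩)
    exfalso
    have ha1 : a.natDegree ≤ 1 := by omega
    have hb1 : b.natDegree ≤ 1 := by omega
    obtain ⟨a1, a0, rfl⟩ := Polynomial.exists_eq_X_add_C_of_natDegree_le_one ha1
    obtain ⟨b1, b0, rfl⟩ := Polynomial.exists_eq_X_add_C_of_natDegree_le_one hb1
    have hprod : f = Polynomial.C (a1 * b1) * Polynomial.X ^ 2 +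
        Polynomial.C (a1 * b0 + a0 * b1) * Polynomial.X + Polynomial.C (a0 * b0) := by
      rw [hab]
      simp only [map_mul, map_add]
      ring
    have e2 : w ^ 4 = a1 * b1 := by
      rw [← hc2, hprod]
      generalize a1 * b1 = u, a1 * b0 + a0 * b1 = u', a0 * b0 = u''
      simp [Polynomial.coeff_C, Polynomial.coeff_X]
    have e0 : - Q = a0 * b0 := by
      rw [← hc0, hprod]
      simp
    have e1 : 0 = a1 * b0 + a0 * b1 := by
      rw [← hc1, hprod]
      generalize a1 * b1 = u, a1 * b0 + a0 * b1 = u', a0 * b0 = u''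
      simp [Polynomial.coeff_C, Polynomial.coeff_X_pow]
    have key : (w ^ 2) ^ 2 * Q = (a1 * b0) ^ 2 := by
      have : a0 * b1 = - (a1 * b0) := by linear_combination - e1
      calc (w ^ 2) ^ 2 * Q = w ^ 4 * Q := by ring
        _ = - (a1 * b1) * (a0 * b0) := by rw [e2, ← e0]; ring
        _ = - (a1 * b0) * (a0 * b1) := by ring
        _ = (a1 * b0) ^ 2 := by rw [this]; ring
    have hdvd : w ^ 2 ∣ a1 * b0 := by
      rw [← IsIntegrallyClosed.pow_dvd_pow_iff (two_ne_zero), ← key]
      exact dvd_mul_right _ _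
    obtain ⟨t, ht⟩ := hdvd
    refine hsq t ?_
    rw [ht] at key
    have hw2 : (w ^ 2) ^ 2 ≠ 0 := pow_ne_zero _ (pow_ne_zero _ hw)
    apply mul_left_cancel₀ hw2
    rw [key]
    ring

/-- `x ^ 6 - x ^ 2` is not a square. -/
theorem not_square {k : Type*} [Field k] (h2 : (2 : k) ≠ 0) (t : Polynomial k) :
    t ^ 2 ≠ Polynomial.X ^ 6 - Polynomial.X ^ 2 := by
  intro h
  have h1 : t.eval 1 = 0 := by
    have := congrArg (Polynomial.eval 1) h
    simpa using this
  have hd := congrArg (fun f => Polynomial.eval 1 (Polynomial.derivative f)) h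
  simp only [Polynomial.derivative_pow, Polynomial.derivative_sub, Polynomial.derivative_X,
    Polynomial.eval_mul, Polynomial.eval_sub, Polynomial.eval_pow, Polynomial.eval_X, h1,
    Polynomial.eval_C] at hd
  norm_num at hd
  have h4 : (4 : k) = 2 * 2 := by norm_num
  rw [h4] at hd
  rcases mul_eq_zero.1 hd.symm with h | h <;> exact h2 h

section
variable {A : Type*} [CommRing A] [IsDomain A] [UniqueFactorizationMonoid A]

/-- The polynomial `q ^ 3 - x_3 ^ 4 q`, `q = x_1 ^ 2 - b x_2 x_3`, in the last three variables. -/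
noncomputable def quo (b : A) : MvPolynomial (Fin 3) A :=
  (X 0 ^ 2 - C b * X 1 * X 2) ^ 3 - X 2 ^ 4 * (X 0 ^ 2 - C b * X 1 * X 2)

theorem finSuccEquiv_poly (b : A) :
    finSuccEquiv A 3 (poly b) =
      Polynomial.C ((X 2 : MvPolynomial (Fin 3) A) ^ 4) * Polynomial.X ^ 2 -
        Polynomial.C (quo b) := by
  have e1 : (1 : Fin 4) = Fin.succ 0 := rfl
  have e2 : (2 : Fin 4) = Fin.succ 1 := rfl
  have e3 : (3 : Fin 4) = Fin.succ 2 := rfl
  rw [poly, quo]
  have hC : finSuccEquiv A 3 (C b) = Polynomial.C (C b) := by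
    rw [finSuccEquiv_apply]
    simp
  simp only [map_sub, map_mul, map_pow, finSuccEquiv_X_zero, e1, e2, e3, finSuccEquiv_X_succ, hC]
  rw [mul_comm (Polynomial.X ^ 2)]

theorem irreducible_poly {k : Type*} [Field k] (h2 : (2 : k) ≠ 0) (ρ : A →+* k) (b : A) :
    Irreducible (poly b) := by
  rw [← MulEquiv.irreducible_iff (finSuccEquiv A 3), finSuccEquiv_poly]
  apply irreducible_quad
  · exact X_ne_zero _
  · apply IsRelPrime.pow_left
    rw [Irreducible.isRelPrime_iff_not_dvd (X_prime.irreducible)]
    rintro ⟨g, hg⟩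
    have h := congrArg (eval₂Hom ρ (![1, 0, 0] : Fin 3 → k)) hg
    simp [quo] at h
  · intro t ht
    have h := congrArg (eval₂Hom (Polynomial.C.comp ρ) (![Polynomial.X, 0, 1] : Fin 3 → Polynomial k))
      ht
    refine not_square h2 (eval₂Hom (Polynomial.C.comp ρ) (![Polynomial.X, 0, 1] : Fin 3 → Polynomial k) t) ?_
    rw [← map_pow, h]
    simp [quo]
    ring

end

theorem poly_homog {A : Type*} [CommRing A] (b : A) : (poly b).IsHomogeneous 6 := by
  have hX : ∀ i : Fin 4, (X i : MvPolynomial (Fin 4) A).IsHomogeneous 1 := fun i =>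
    isHomogeneous_X A i
  have hq : (X 1 ^ 2 - C b * X 2 * X 3 : MvPolynomial (Fin 4) A).IsHomogeneous 2 := by
    apply IsHomogeneous.sub
    · exact (hX 1).pow 2
    · exact (((isHomogeneous_C _ b).mul (hX 2)).mul (hX 3))
  unfold poly
  apply IsHomogeneous.sub
  · exact ((hX 0).pow 2).mul ((hX 3).pow 4)
  · apply IsHomogeneous.sub
    · exact hq.pow 3
    · exact ((hX 3).pow 4).mul hq

theorem map_poly {A B : Type*} [CommRing A] [CommRing B] (ρ : A →+* B) (b : A) :
    map ρ (poly b) = poly (ρ b) := by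
  simp [poly]

/-- The homogeneous coordinate ring of the family is flat over the base. -/
theorem flat_family {k : Type*} [Field k] (h2 : (2 : k) ≠ 0) :
    Module.Flat (Polynomial k)
      (MvPolynomial (Fin 4) (Polynomial k) ⧸
        Ideal.span {poly (Polynomial.X : Polynomial k)}) := by
  set I : Ideal (MvPolynomial (Fin 4) (Polynomial k)) :=
    Ideal.span {poly (Polynomial.X : Polynomial k)} with hI
  have hirr : Irreducible (poly (Polynomial.X : Polynomial k)) :=
    irreducible_poly h2 (Polynomial.evalRingHom 0) _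
  have hprime : I.IsPrime := by
    rw [hI, Ideal.span_singleton_prime hirr.ne_zero]
    exact hirr.prime
  have hinj : ∀ c : Polynomial k, (Ideal.Quotient.mk I (C c)) = 0 → c = 0 := by
    intro c hc
    rw [Ideal.Quotient.eq_zero_iff_mem, hI, Ideal.mem_span_singleton] at hc
    by_contra hc0
    have hdeg : (C c : MvPolynomial (Fin 4) (Polynomial k)).totalDegree = 0 := totalDegree_C _
    obtain ⟨g, hg⟩ := hc
    have hg0 : g ≠ 0 := by
      rintro rfl
      rw [mul_zero] at hg
      exact hc0 (C_injective _ _ (by rw [hg, map_zero]))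
    have := totalDegree_mul_of_isDomain hirr.ne_zero hg0
    rw [← hg, hdeg, (poly_homog _).totalDegree hirr.ne_zero] at this
    omega
  have : IsDomain (MvPolynomial (Fin 4) (Polynomial k) ⧸ I) := Ideal.Quotient.isDomain I
  have : Module.IsTorsionFree (Polynomial k) (MvPolynomial (Fin 4) (Polynomial k) ⧸ I) := by
    rw [Module.isTorsionFree_iff_algebraMap_injective, injective_iff_map_eq_zero]
    intro c hc
    exact hinj c hc
  infer_instance

end Pool.Agent.X329.Triv
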