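import Mathlib
import Pool.Agent.X329.Triv.Defs

set_option autoImplicit false

namespace Pool.Agent.X329.Triv

open MvPolynomial

variable {k : Type*} [Field k]

theorem IsHom.eval_smul {M n : ℕ} {F : Poly k M n} {d : ℕ} (hF : IsHom F d) (c : k)
    (β : Fin M → k) (v : Fin (n + 1) → k) :
    eval (Sum.elim β (fun i => c * v i)) F = c ^ d * eval (Sum.elim β v) F := by
  rw [eval_eq', eval_eq', Finset.mul_sum]
  refine Finset.sum_congr rfl fun m hm => ?_
  have h := hF m hm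
  rw [Fintype.prod_sum_type, Fintype.prod_sum_type]
  simp only [Sum.elim_inl, Sum.elim_inr, mul_pow, Finset.prod_mul_distrib,
    Finset.prod_pow_eq_pow_sum, h]
  ring

theorem hom_eval_smul {σ : Type*} [Fintype σ] {n : ℕ} {f : MvPolynomial σ k}
    (hf : f.IsHomogeneous n) (c : k) (x : σ → k) :
    eval (fun i => c * x i) f = c ^ n * eval x f := by
  rw [eval_eq', eval_eq', Finset.mul_sum]
  refine Finset.sum_congr rfl fun m hm => ?_
  have h : ∑ i, m i = n := by
    have := hf (mem_support_iff.1 hm)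
    rw [← this, Finsupp.weight_apply, Finsupp.sum_fintype]
    · simp
    · simp
  simp only [mul_pow, Finset.prod_mul_distrib, Finset.prod_pow_eq_pow_sum, h]
  ring

theorem rep_mk {n : ℕ} (x : Fin (n + 1) → k) (hx : x ≠ 0) :
    ∃ c : k, c ≠ 0 ∧ (Projectivization.mk k x hx).rep = fun i => c * x i := by
  obtain ⟨a, ha⟩ := Projectivization.exists_smul_eq_mk_rep k x hx
  refine ⟨a, a.ne_zero, ?_⟩
  rw [← ha]
  funext i
  rfl

/-- The point with given homogeneous coordinates (any point for the zero vector). -/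
noncomputable def pt {n : ℕ} (v : Fin (n + 1) → k) : PP k n :=
  open Classical in
  if h : v ≠ 0 then Projectivization.mk k v h
  else Projectivization.mk k (fun _ => 1) (fun h => one_ne_zero (congrFun h 0))

theorem pt_eq {n : ℕ} {v : Fin (n + 1) → k} (h : v ≠ 0) : pt v = Projectivization.mk k v h := by
  rw [pt, dif_pos h]

theorem pt_rep {n : ℕ} (p : PP k n) : pt p.rep = p := by
  rw [pt_eq p.rep_nonzero, Projectivization.mk_rep]

theorem smul_ne {n : ℕ} {v : Fin (n + 1) → k} (h : v ≠ 0) {c : k} (hc : c ≠ 0) :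
    (fun i => c * v i) ≠ 0 := by
  obtain ⟨i, hi⟩ := Function.ne_iff.1 h
  intro h0
  exact (mul_ne_zero hc hi) (congrFun h0 i)

theorem pt_smul {n : ℕ} {v : Fin (n + 1) → k} (h : v ≠ 0) {c : k} (hc : c ≠ 0) :
    pt (fun i => c * v i) = pt v := by
  rw [pt_eq h, pt_eq (smul_ne h hc), Projectivization.mk_eq_mk_iff']
  exact ⟨c, rfl⟩

/-- Two explicit systems of homogeneous polynomials define a birational equivalence. -/
theorem birational_of_polys {n m : ℕ} {A : MvPolynomial (Fin (n + 1)) k}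
    {B : MvPolynomial (Fin (m + 1)) k} {a b d e r s : ℕ} (hA : A.IsHomogeneous a)
    (hB : B.IsHomogeneous b) (F : Fin (m + 1) → MvPolynomial (Fin (n + 1)) k)
    (G : Fin (n + 1) → MvPolynomial (Fin (m + 1)) k) (hF : ∀ j, (F j).IsHomogeneous d)
    (hG : ∀ j, (G j).IsHomogeneous e) (u : MvPolynomial (Fin (n + 1)) k)
    (w : MvPolynomial (Fin (m + 1)) k) (hu : u.IsHomogeneous r) (hw : w.IsHomogeneous s)
    (h1 : ∀ v, v ≠ 0 → eval v A = 0 → eval v u ≠ 0 → (∃ j, eval v (F j) ≠ 0) ∧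
      eval (fun j => eval v (F j)) B = 0 ∧ eval (fun j => eval v (F j)) w ≠ 0 ∧
      ∃ c, c ≠ 0 ∧ ∀ i, eval (fun j => eval v (F j)) (G i) = c * v i)
    (h2 : ∀ v, v ≠ 0 → eval v B = 0 → eval v w ≠ 0 → (∃ j, eval v (G j) ≠ 0) ∧
      eval (fun j => eval v (G j)) A = 0 ∧ eval (fun j => eval v (G j)) u ≠ 0 ∧
      ∃ c, c ≠ 0 ∧ ∀ i, eval (fun j => eval v (G j)) (F i) = c * v i)
    (h3 : ∃ v, v ≠ 0 ∧ eval v A = 0 ∧ eval v u ≠ 0) :
    AreBirational {p : PP k n | eval p.rep A = 0} {p : PP k m | eval p.rep B = 0} := by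
  -- a one-sided version of all statements
  have key : ∀ {n m : ℕ} {A : MvPolynomial (Fin (n + 1)) k}
      {B : MvPolynomial (Fin (m + 1)) k} {b d e s : ℕ}
      (_ : B.IsHomogeneous b) (F : Fin (m + 1) → MvPolynomial (Fin (n + 1)) k)
      (G : Fin (n + 1) → MvPolynomial (Fin (m + 1)) k) (_ : ∀ j, (F j).IsHomogeneous d)
      (_ : ∀ j, (G j).IsHomogeneous e) (u : MvPolynomial (Fin (n + 1)) k)
      (w : MvPolynomial (Fin (m + 1)) k) (_ : w.IsHomogeneous s)
      (_ : ∀ v, v ≠ 0 → eval v A = 0 → eval v u ≠ 0 → (∃ j, eval v (F j) ≠ 0) ∧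
        eval (fun j => eval v (F j)) B = 0 ∧ eval (fun j => eval v (F j)) w ≠ 0 ∧
        ∃ c, c ≠ 0 ∧ ∀ i, eval (fun j => eval v (F j)) (G i) = c * v i),
      IsMorphism ({p : PP k n | eval p.rep u ≠ 0} ∩ {p : PP k n | eval p.rep A = 0})
        (fun p => pt fun j => eval p.rep (F j)) ∧
      ∀ x ∈ {p : PP k n | eval p.rep u ≠ 0} ∩ {p : PP k n | eval p.rep A = 0},
        (pt fun j => eval x.rep (F j)) ∈
          ({p : PP k m | eval p.rep w ≠ 0} ∩ {p : PP k m | eval p.rep B = 0}) ∧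
        (pt fun i => eval (pt fun j => eval x.rep (F j)).rep (G i)) = x := by
    intro n m A B b d e s hB F G hF hG u w hw h1
    constructor
    · rintro y ⟨hy1, hy2⟩
      obtain ⟨hj, -⟩ := h1 y.rep y.rep_nonzero hy2 hy1
      refine ⟨d, F, hF, hj, ?_⟩
      rintro z hz ⟨j, hj⟩
      have hne : (fun j => eval z.rep (F j)) ≠ 0 := fun h => hj (congrFun h j)
      exact ⟨hne, (pt_eq hne).symm⟩
    · rintro x ⟨hx1, hx2⟩
      obtain ⟨⟨j, hj⟩, hB0, hw0, c, hc, hG0⟩ := h1 x.rep x.rep_nonzero hx2 hx1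
      have hne : (fun j => eval x.rep (F j)) ≠ 0 := fun h => hj (congrFun h j)
      rw [pt_eq hne]
      obtain ⟨c', hc', hrep⟩ := rep_mk _ hne
      refine ⟨⟨?_, ?_⟩, ?_⟩
      · change eval _ w ≠ 0
        rw [hrep, hom_eval_smul hw]
        exact mul_ne_zero (pow_ne_zero _ hc') hw0
      · change eval _ B = 0
        rw [hrep, hom_eval_smul hB, hB0, mul_zero]
      · have : (fun i => eval (Projectivization.mk k (fun j => eval x.rep (F j)) hne).rep (G i)) =
            fun i => (c' ^ e * c) * x.rep i := by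
          funext i
          rw [hrep, hom_eval_smul (hG i), hG0 i, mul_assoc]
        rw [this, pt_smul x.rep_nonzero (mul_ne_zero (pow_ne_zero _ hc') hc), pt_rep]
  obtain ⟨k1, k2⟩ := key hB F G hF hG u w hw h1
  obtain ⟨k3, k4⟩ := key hA G F hG hF w u hu h2
  have hne : ({p : PP k n | eval p.rep u ≠ 0} ∩ {p : PP k n | eval p.rep A = 0}).Nonempty := by
    obtain ⟨v, hv, hvA, hvu⟩ := h3
    obtain ⟨c, hc, hrep⟩ := rep_mk v hv
    refine ⟨Projectivization.mk k v hv, ?_, ?_⟩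
    · change eval _ u ≠ 0
      rw [hrep, hom_eval_smul hu]
      exact mul_ne_zero (pow_ne_zero _ hc) hvu
    · change eval _ A = 0
      rw [hrep, hom_eval_smul hA, hvA, mul_zero]
  refine ⟨{p : PP k n | eval p.rep u ≠ 0}, {p : PP k m | eval p.rep w ≠ 0},
    fun p => pt fun j => eval p.rep (F j), fun p => pt fun j => eval p.rep (G j), ?_, ?_, hne, ?_,
    k1, k3, k2, k4⟩
  · exact ⟨{u}, fun F hF => by rw [Set.mem_singleton_iff.1 hF]; exact ⟨_, hu⟩, by simp⟩
  · exact ⟨{w}, fun F hF => by rw [Set.mem_singleton_iff.1 hF]; exact ⟨_, hw⟩, by simp⟩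
  · obtain ⟨x, hx⟩ := hne
    exact ⟨_, (k2 x hx).1⟩

end Pool.Agent.X329.Triv
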