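import Mathlib
import Pool.Agent.X329.Triv.Basic
import Pool.Agent.X329.Triv.Alg

/-!
# The fibres are birational to each other
-/

set_option autoImplicit false
set_option linter.unusedSimpArgs false

namespace Pool.Agent.X329.Triv

open MvPolynomial

variable {k : Type*} [Field k]

theorem eval_poly (b : k) (v : Fin 4 → k) :
    eval v (poly b) = v 0 ^ 2 * v 3 ^ 4 - ((v 1 ^ 2 - b * v 2 * v 3) ^ 3 -
      v 3 ^ 4 * (v 1 ^ 2 - b * v 2 * v 3)) := by
  simp [poly]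

theorem AreBirational.symm {n m : ℕ} {X : Set (PP k n)} {Y : Set (PP k m)}
    (h : AreBirational X Y) : AreBirational Y X := by
  obtain ⟨U, V, f, g, h1, h2, h3, h4, h5, h6, h7, h8⟩ := h
  exact ⟨V, U, g, f, h2, h1, h4, h3, h6, h5, h8, h7⟩

/-- The fibres over `b` and `c` are isomorphic if `b = u c` for a nonzero `u`. -/
theorem birational_linear (b c u : k) (hu : u ≠ 0) (h : b = u * c) :
    AreBirational (fib b) (fib c) := by
  have hX : ∀ i : Fin 4, (X i : MvPolynomial (Fin 4) k).IsHomogeneous 1 := fun i =>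
    isHomogeneous_X k i
  refine birational_of_polys (poly_homog b) (poly_homog c) (d := 1) (e := 1) (r := 0) (s := 0)
    ![X 0, X 1, C u * X 2, X 3] ![X 0, X 1, C u⁻¹ * X 2, X 3] ?_ ?_ 1 1 (isHomogeneous_one _ _)
    (isHomogeneous_one _ _) ?_ ?_ ⟨![0, 0, 0, 1], ?_, ?_, ?_⟩
  · intro j
    fin_cases j
    · exact hX 0
    · exact hX 1
    · simpa using (isHomogeneous_C (Fin 4) u).mul (hX 2)
    · exact hX 3
  · intro j
    fin_cases j
    · exact hX 0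
    · exact hX 1
    · simpa using (isHomogeneous_C (Fin 4) u⁻¹).mul (hX 2)
    · exact hX 3
  · intro v hv h0 _
    rw [eval_poly] at h0
    refine ⟨?_, ?_, by simp, 1, one_ne_zero, ?_⟩
    · by_contra hcon
      push Not at hcon
      apply hv
      have e0 := hcon 0
      have e1 := hcon 1
      have e2 := hcon 2
      have e3 := hcon 3
      simp [hu] at e0 e1 e2 e3
      funext i
      fin_cases i <;> assumption
    · rw [eval_poly]
      simp only [Matrix.cons_val, eval_X, eval_C, map_mul]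
      rw [← h0, h]
      ring
    · intro i
      fin_cases i <;> simp [hu]
  · intro v hv h0 _
    rw [eval_poly] at h0
    refine ⟨?_, ?_, by simp, 1, one_ne_zero, ?_⟩
    · by_contra hcon
      push Not at hcon
      apply hv
      have e0 := hcon 0
      have e1 := hcon 1
      have e2 := hcon 2
      have e3 := hcon 3
      simp [hu] at e0 e1 e2 e3
      funext i
      fin_cases i <;> assumption
    · rw [eval_poly]
      simp only [Matrix.cons_val, eval_X, eval_C, map_mul]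
      rw [← h0, h]
      field_simp
    · intro i
      fin_cases i <;> simp [hu]
  · intro h0
    have := congrFun h0 3
    simp at this
  · rw [eval_poly]
    simp
  · simp

/-- The fibres over `b ≠ 0` and `0` are birational. -/
theorem birational_zero (h2 : (2 : k) ≠ 0) (i : k) (hi : i ^ 2 = -1) (b : k) (hb : b ≠ 0) :
    AreBirational (fib b) (fib 0) := by
  have hX : ∀ i : Fin 4, (X i : MvPolynomial (Fin 4) k).IsHomogeneous 1 := fun i =>
    isHomogeneous_X k i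
  have hi0 : i ≠ 0 := by
    rintro rfl
    norm_num at hi
  set Q : MvPolynomial (Fin 4) k := X 1 ^ 2 - C b * X 2 * X 3 with hQ
  have hQh : Q.IsHomogeneous 2 := by
    apply IsHomogeneous.sub
    · exact (hX 1).pow 2
    · exact (((isHomogeneous_C _ b).mul (hX 2)).mul (hX 3))
  have hAh : (C i * Q + X 3 ^ 2 : MvPolynomial (Fin 4) k).IsHomogeneous 2 := by
    apply IsHomogeneous.add
    · simpa using (isHomogeneous_C (Fin 4) i).mul hQh
    · exact (hX 3).pow 2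
  have hDh : (C i * Q - X 3 ^ 2 : MvPolynomial (Fin 4) k).IsHomogeneous 2 := by
    apply IsHomogeneous.sub
    · simpa using (isHomogeneous_C (Fin 4) i).mul hQh
    · exact (hX 3).pow 2
  have hEh : (X 1 - X 3 : MvPolynomial (Fin 4) k).IsHomogeneous 1 := (hX 1).sub (hX 3)
  have hTh : (X 2 ^ 2 * (X 1 - X 3) + C i * X 3 ^ 2 * (X 1 + X 3) :
      MvPolynomial (Fin 4) k).IsHomogeneous 3 := by
    apply IsHomogeneous.add
    · exact ((hX 2).pow 2).mul hEh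
    · have := ((isHomogeneous_C (Fin 4) i).mul ((hX 3).pow 2)).mul ((hX 1).add (hX 3))
      simpa using this
  refine birational_of_polys (poly_homog b) (poly_homog 0) (d := 7) (e := 5) (r := 5) (s := 3)
    ![C (2 - 2 * i) * (C i * Q + X 3 ^ 2) * X 0 * X 3 ^ 4,
      (C i * Q + X 3 ^ 2) * (C i * Q - X 3 ^ 2) ^ 2 * X 3,
      X 1 * (C i * Q - X 3 ^ 2) ^ 3, X 3 * (C i * Q - X 3 ^ 2) ^ 3]
    ![C (b * (1 + i)) * X 0 * X 3 ^ 4, C b * X 2 * X 3 * X 1 * (X 1 - X 3) ^ 2,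
      X 1 * (X 1 - X 3) * (X 2 ^ 2 * (X 1 - X 3) + C i * X 3 ^ 2 * (X 1 + X 3)),
      C b * X 3 ^ 2 * X 1 * (X 1 - X 3) ^ 2] ?_ ?_
    (X 3 * (C i * Q + X 3 ^ 2) * (C i * Q - X 3 ^ 2)) (X 3 * X 1 * (X 1 - X 3)) ?_
    ?_ ?_ ?_ ⟨![0, 0, 0, 1], ?_, ?_, ?_⟩
  · intro j
    fin_cases j
    · simpa using (((isHomogeneous_C (Fin 4) (2 - 2 * i)).mul hAh).mul (hX 0)).mul ((hX 3).pow 4)
    · exact (hAh.mul (hDh.pow 2)).mul (hX 3)
    · exact (hX 1).mul (hDh.pow 3)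
    · exact (hX 3).mul (hDh.pow 3)
  · intro j
    fin_cases j
    · simpa using ((isHomogeneous_C (Fin 4) (b * (1 + i))).mul (hX 0)).mul ((hX 3).pow 4)
    · simpa using ((((isHomogeneous_C (Fin 4) b).mul (hX 2)).mul (hX 3)).mul (hX 1)).mul
        (hEh.pow 2)
    · exact ((hX 1).mul hEh).mul hTh
    · simpa using (((isHomogeneous_C (Fin 4) b).mul ((hX 3).pow 2)).mul (hX 1)).mul
        (hEh.pow 2)
  · exact ((hX 3).mul hAh).mul hDh
  · exact ((hX 3).mul (hX 1)).mul hEh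
  · intro v hv h0 hu
    rw [eval_poly] at h0
    have hq : eval v Q = v 1 ^ 2 - b * v 2 * v 3 := by simp [hQ]
    simp only [map_mul, map_add, map_sub, map_pow, eval_X, eval_C, hq] at hu
    have hF : (fun j => eval v ((![C (2 - 2 * i) * (C i * Q + X 3 ^ 2) * X 0 * X 3 ^ 4,
      (C i * Q + X 3 ^ 2) * (C i * Q - X 3 ^ 2) ^ 2 * X 3,
      X 1 * (C i * Q - X 3 ^ 2) ^ 3, X 3 * (C i * Q - X 3 ^ 2) ^ 3] :
      Fin 4 → MvPolynomial (Fin 4) k) j)) =
      ![(2 - 2 * i) * (i * (v 1 ^ 2 - b * v 2 * v 3) + v 3 ^ 2) * v 0 * v 3 ^ 4,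
        (i * (v 1 ^ 2 - b * v 2 * v 3) + v 3 ^ 2) *
          (i * (v 1 ^ 2 - b * v 2 * v 3) - v 3 ^ 2) ^ 2 * v 3,
        v 1 * (i * (v 1 ^ 2 - b * v 2 * v 3) - v 3 ^ 2) ^ 3,
        v 3 * (i * (v 1 ^ 2 - b * v 2 * v 3) - v 3 ^ 2) ^ 3] := by
      funext j
      fin_cases j <;> simp [hq]
    rw [hF]
    have hE : (i * (v 1 ^ 2 - b * v 2 * v 3) + v 3 ^ 2) -
      (i * (v 1 ^ 2 - b * v 2 * v 3) - v 3 ^ 2) = 2 * v 3 ^ 2 := by ring
    have hE' : (i * (v 1 ^ 2 - b * v 2 * v 3) + v 3 ^ 2) +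
      (i * (v 1 ^ 2 - b * v 2 * v 3) - v 3 ^ 2) = 2 * i * (v 1 ^ 2 - b * v 2 * v 3) := by ring
    have hbr : (2 - 2 * i) ^ 2 * v 0 ^ 2 * v 3 ^ 6 -
        (i * (v 1 ^ 2 - b * v 2 * v 3) + v 3 ^ 2) ^ 4 +
        (i * (v 1 ^ 2 - b * v 2 * v 3) - v 3 ^ 2) ^ 4 = 0 := by
      linear_combination (-8 * i * v 3 ^ 2) * h0 +
        (4 * v 0 ^ 2 * v 3 ^ 6 - 8 * i * (v 1 ^ 2 - b * v 2 * v 3) ^ 3 * v 3 ^ 2) * hi
    generalize hA : i * (v 1 ^ 2 - b * v 2 * v 3) + v 3 ^ 2 = A at hu hE hE' hbr ⊢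
    generalize hD : i * (v 1 ^ 2 - b * v 2 * v 3) - v 3 ^ 2 = D at hu hE hE' hbr ⊢
    obtain ⟨⟨hw0, hA0⟩, hD0⟩ : (v 3 ≠ 0 ∧ A ≠ 0) ∧ D ≠ 0 :=
      ⟨⟨left_ne_zero_of_mul (left_ne_zero_of_mul hu), right_ne_zero_of_mul (left_ne_zero_of_mul hu)⟩,
        right_ne_zero_of_mul hu⟩
    refine ⟨⟨3, ?_⟩, ?_, ?_, 4 * b * A * v 3 ^ 8 * D ^ 12, ?_, ?_⟩
    · have := congrFun hF 3
      simp only [hA, hD] at this
      rw [this]
      simp [hw0, hD0]
    · rw [eval_poly]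
      simp only [Matrix.cons_val]
      linear_combination (A ^ 2 * D ^ 12 * v 3 ^ 6) * hbr
    · simp only [map_mul, map_sub, eval_X, Matrix.cons_val]
      have : A * D ^ 2 * v 3 - v 3 * D ^ 3 = 2 * v 3 ^ 3 * D ^ 2 := by
        linear_combination (v 3 * D ^ 2) * hE
      rw [this]
      simp [hw0, hA0, hD0, h2]
    · have h4 : (4 : k) ≠ 0 := by
        have : (4 : k) = 2 * 2 := by norm_num
        rw [this]
        exact mul_ne_zero h2 h2
      simp [hw0, hA0, hD0, h4, hb]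
    · have e1 : A * D ^ 2 * v 3 - v 3 * D ^ 3 = 2 * v 3 ^ 3 * D ^ 2 := by
        linear_combination (v 3 * D ^ 2) * hE
      intro j
      fin_cases j
      · simp only [Fin.zero_eta, Fin.mk_one, Fin.reduceFinMk, Matrix.cons_val, map_mul, map_add,
          map_sub, map_pow, eval_X, eval_C]
        linear_combination (-2 * b * A * v 0 * v 3 ^ 8 * D ^ 12) * hi
      · simp only [Fin.zero_eta, Fin.mk_one, Fin.reduceFinMk, Matrix.cons_val, map_mul, map_add,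
          map_sub, map_pow, eval_X, eval_C]
        rw [e1]
        ring
      · simp only [Fin.zero_eta, Fin.mk_one, Fin.reduceFinMk, Matrix.cons_val, map_mul, map_add,
          map_sub, map_pow, eval_X, eval_C]
        rw [e1]
        have e2 : (v 1 * D ^ 3) ^ 2 * (2 * v 3 ^ 3 * D ^ 2) +
            i * (v 3 * D ^ 3) ^ 2 * (A * D ^ 2 * v 3 + v 3 * D ^ 3) =
            2 * v 3 ^ 3 * D ^ 8 * (v 1 ^ 2 - (v 1 ^ 2 - b * v 2 * v 3)) := by
          linear_combination (i * v 3 ^ 3 * D ^ 8) * hE' +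
            (2 * v 3 ^ 3 * D ^ 8 * (v 1 ^ 2 - b * v 2 * v 3)) * hi
        rw [e2]
        ring
      · simp only [Fin.zero_eta, Fin.mk_one, Fin.reduceFinMk, Matrix.cons_val, map_mul, map_add,
          map_sub, map_pow, eval_X, eval_C]
        rw [e1]
        ring
  · intro v hv h0 hw
    rw [eval_poly] at h0
    simp only [map_mul, map_sub, eval_X] at hw
    have hG : (fun j => eval v ((![C (b * (1 + i)) * X 0 * X 3 ^ 4,
      C b * X 2 * X 3 * X 1 * (X 1 - X 3) ^ 2,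
      X 1 * (X 1 - X 3) * (X 2 ^ 2 * (X 1 - X 3) + C i * X 3 ^ 2 * (X 1 + X 3)),
      C b * X 3 ^ 2 * X 1 * (X 1 - X 3) ^ 2] :
      Fin 4 → MvPolynomial (Fin 4) k) j)) =
      ![b * (1 + i) * v 0 * v 3 ^ 4, b * v 2 * v 3 * v 1 * (v 1 - v 3) ^ 2,
        v 1 * (v 1 - v 3) * (v 2 ^ 2 * (v 1 - v 3) + i * v 3 ^ 2 * (v 1 + v 3)),
        b * v 3 ^ 2 * v 1 * (v 1 - v 3) ^ 2] := by
      funext j
      fin_cases j <;> simp
    rw [hG]
    obtain ⟨⟨hw0, hx0⟩, hE0⟩ : (v 3 ≠ 0 ∧ v 1 ≠ 0) ∧ v 1 - v 3 ≠ 0 :=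
      ⟨⟨left_ne_zero_of_mul (left_ne_zero_of_mul hw), right_ne_zero_of_mul (left_ne_zero_of_mul hw)⟩,
        right_ne_zero_of_mul hw⟩
    have hQv : (b * v 2 * v 3 * v 1 * (v 1 - v 3) ^ 2) ^ 2 -
        b * (v 1 * (v 1 - v 3) * (v 2 ^ 2 * (v 1 - v 3) + i * v 3 ^ 2 * (v 1 + v 3))) *
          (b * v 3 ^ 2 * v 1 * (v 1 - v 3) ^ 2) =
        - i * b ^ 2 * v 3 ^ 4 * v 1 ^ 2 * (v 1 - v 3) ^ 3 * (v 1 + v 3) := by ring
    have hAv : i * ((b * v 2 * v 3 * v 1 * (v 1 - v 3) ^ 2) ^ 2 -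
        b * (v 1 * (v 1 - v 3) * (v 2 ^ 2 * (v 1 - v 3) + i * v 3 ^ 2 * (v 1 + v 3))) *
          (b * v 3 ^ 2 * v 1 * (v 1 - v 3) ^ 2)) + (b * v 3 ^ 2 * v 1 * (v 1 - v 3) ^ 2) ^ 2 =
        2 * b ^ 2 * v 3 ^ 4 * v 1 ^ 3 * (v 1 - v 3) ^ 3 := by
      rw [hQv]
      linear_combination (- b ^ 2 * v 3 ^ 4 * v 1 ^ 2 * (v 1 - v 3) ^ 3 * (v 1 + v 3)) * hi
    have hDv : i * ((b * v 2 * v 3 * v 1 * (v 1 - v 3) ^ 2) ^ 2 -
        b * (v 1 * (v 1 - v 3) * (v 2 ^ 2 * (v 1 - v 3) + i * v 3 ^ 2 * (v 1 + v 3))) *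
          (b * v 3 ^ 2 * v 1 * (v 1 - v 3) ^ 2)) - (b * v 3 ^ 2 * v 1 * (v 1 - v 3) ^ 2) ^ 2 =
        2 * b ^ 2 * v 3 ^ 5 * v 1 ^ 2 * (v 1 - v 3) ^ 3 := by
      rw [hQv]
      linear_combination (- b ^ 2 * v 3 ^ 4 * v 1 ^ 2 * (v 1 - v 3) ^ 3 * (v 1 + v 3)) * hi
    refine ⟨⟨3, ?_⟩, ?_, ?_, 8 * b ^ 7 * v 3 ^ 16 * v 1 ^ 7 * (v 1 - v 3) ^ 11, ?_, ?_⟩
    · have := congrFun hG 3
      rw [this]
      simp [hw0, hx0, hE0, hb]
    · rw [eval_poly]
      simp only [Matrix.cons_val]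
      rw [hQv]
      have h0' : v 0 ^ 2 * v 3 ^ 4 - (v 1 ^ 6 - v 3 ^ 4 * v 1 ^ 2) = 0 := by
        rw [← h0]
        ring
      linear_combination (2 * i * b ^ 6 * v 3 ^ 12 * v 1 ^ 4 * (v 1 - v 3) ^ 8) * h0' +
        (b ^ 6 * v 3 ^ 12 * v 1 ^ 4 * (v 1 - v 3) ^ 8 *
          (v 0 ^ 2 * v 3 ^ 4 + i * v 1 ^ 2 * (v 1 - v 3) * (v 1 + v 3) ^ 3)) * hi
    · simp only [hQ, map_mul, map_sub, map_add, map_pow, eval_X, eval_C, Matrix.cons_val]
      rw [hAv, hDv]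
      simp [hw0, hx0, hE0, h2, hb]
    · have h8 : (8 : k) ≠ 0 := by
        have : (8 : k) = 2 * 2 * 2 := by norm_num
        rw [this]
        exact mul_ne_zero (mul_ne_zero h2 h2) h2
      simp [hw0, hx0, hE0, h8, hb]
    · intro j
      fin_cases j
      · simp only [Fin.zero_eta, Fin.mk_one, Fin.reduceFinMk, Matrix.cons_val, hQ, map_mul, map_add,
          map_sub, map_pow, eval_X, eval_C]
        rw [hAv]
        linear_combination (-4 * b ^ 7 * v 0 * v 3 ^ 16 * v 1 ^ 7 * (v 1 - v 3) ^ 11) * hi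
      · simp only [Fin.zero_eta, Fin.mk_one, Fin.reduceFinMk, Matrix.cons_val, hQ, map_mul, map_add,
          map_sub, map_pow, eval_X, eval_C]
        rw [hAv, hDv]
        ring
      · simp only [Fin.zero_eta, Fin.mk_one, Fin.reduceFinMk, Matrix.cons_val, hQ, map_mul, map_add,
          map_sub, map_pow, eval_X, eval_C]
        rw [hDv]
        ring
      · simp only [Fin.zero_eta, Fin.mk_one, Fin.reduceFinMk, Matrix.cons_val, hQ, map_mul, map_add,
          map_sub, map_pow, eval_X, eval_C]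
        rw [hDv]
        ring
  · intro h0
    have := congrFun h0 3
    simp at this
  · rw [eval_poly]
    simp
  · simp [hQ]

/-- All fibres are birational to each other. -/
theorem birational_fib [IsAlgClosed k] (h2 : (2 : k) ≠ 0) (b c : k) :
    AreBirational (fib b) (fib c) := by
  obtain ⟨i, hi⟩ := IsAlgClosed.exists_pow_nat_eq (-1 : k) (n := 2) (by norm_num)
  by_cases hb : b = 0
  · by_cases hc : c = 0
    · exact birational_linear b c 1 one_ne_zero (by rw [hb, hc, mul_zero])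
    · rw [hb]
      exact (birational_zero h2 i hi c hc).symm
  · by_cases hc : c = 0
    · rw [hc]
      exact birational_zero h2 i hi b hb
    · exact birational_linear b c (b / c) (div_ne_zero hb hc) (by field_simp)

end Pool.Agent.X329.Triv
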