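import Mathlib
import Pool.Agent.X329.Triv.Bir

/-!
# The obstruction
-/

set_option autoImplicit false

namespace Pool.Agent.X329.Triv

open MvPolynomial

variable {k : Type*} [Field k]

/-- There are no rational curves on `p ^ 2 = x ^ 2 (x ^ 4 - 1)` except those with `x` constant. -/
theorem ratio_const (h2 : (2 : k) ≠ 0) {p x w : Polynomial k}
    (h : p ^ 2 * w ^ 4 = x ^ 6 - x ^ 2 * w ^ 4) :
    x * w.comp (-Polynomial.X) = x.comp (-Polynomial.X) * w := by
  classical
  by_cases hw : w = 0
  · subst hw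
    simp
  by_cases hx : x = 0
  · subst hx
    simp
  have h1 : x ∣ p * w ^ 2 := by
    rw [← IsIntegrallyClosed.pow_dvd_pow_iff (n := 2) two_ne_zero]
    refine ⟨x ^ 4 - w ^ 4, ?_⟩
    linear_combination h
  obtain ⟨r, hr⟩ := h1
  have hr2 : r ^ 2 = x ^ 4 - w ^ 4 := by
    have hx2 : x ^ 2 ≠ 0 := pow_ne_zero _ hx
    apply mul_left_cancel₀ hx2
    have : (p * w ^ 2) ^ 2 = (x * r) ^ 2 := by rw [hr]
    linear_combination h - this
  obtain ⟨a, ha⟩ := EuclideanDomain.gcd_dvd_left x w
  obtain ⟨c, hc⟩ := EuclideanDomain.gcd_dvd_right x w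
  have hg0 : EuclideanDomain.gcd x w ≠ 0 := by
    intro h0
    rw [EuclideanDomain.gcd_eq_zero_iff] at h0
    exact hx h0.1
  have hcop : IsCoprime a c := by
    have e := EuclideanDomain.gcd_eq_gcd_ab x w
    refine ⟨EuclideanDomain.gcdA x w, EuclideanDomain.gcdB x w, ?_⟩
    apply mul_left_cancel₀ hg0
    conv_rhs => rw [mul_one, e]
    linear_combination (- EuclideanDomain.gcdA x w) * ha - EuclideanDomain.gcdB x w * hc
  generalize EuclideanDomain.gcd x w = g at ha hc hg0
  have hdvd : g ^ 2 ∣ r := by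
    rw [← IsIntegrallyClosed.pow_dvd_pow_iff (n := 2) two_ne_zero, hr2]
    refine ⟨a ^ 4 - c ^ 4, ?_⟩
    rw [ha, hc]
    ring
  obtain ⟨s, hs⟩ := hdvd
  have hs2 : s ^ 2 = a ^ 4 - c ^ 4 := by
    have hg4 : g ^ 4 ≠ 0 := pow_ne_zero _ hg0
    apply mul_left_cancel₀ hg4
    rw [hs, ha, hc] at hr2
    linear_combination hr2
  have ha0 : a ≠ 0 := by
    rintro rfl
    exact hx (by rw [ha, mul_zero])
  have hc0 : c ≠ 0 := by
    rintro rfl
    exact hw (by rw [hc, mul_zero])
  have hdeg : a.natDegree = 0 ∧ c.natDegree = 0 := by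
    by_cases hs0 : s = 0
    · rw [hs0] at hs2
      have e : a ^ 4 = c ^ 4 := by linear_combination - hs2
      have e1 : IsUnit a := by
        have h4 : IsCoprime a (c ^ 4) := hcop.pow_right
        exact h4.isUnit_of_dvd' dvd_rfl (by rw [← e]; exact dvd_pow_self _ (by norm_num))
      have e2 : IsUnit c := by
        have h4 : IsCoprime (a ^ 4) c := hcop.pow_left
        exact h4.isUnit_of_dvd' (by rw [e]; exact dvd_pow_self _ (by norm_num)) dvd_rfl
      exact ⟨Polynomial.natDegree_eq_zero_of_isUnit e1, Polynomial.natDegree_eq_zero_of_isUnit e2⟩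
    · have h4 : ((4 : ℕ) : k) ≠ 0 := by
        have : ((4 : ℕ) : k) = 2 * 2 := by norm_num
        rw [this]
        exact mul_ne_zero h2 h2
      have := Polynomial.flt_catalan (k := k) (p := 4) (q := 4) (r := 2) (by norm_num) (by norm_num)
        (by norm_num) (by norm_num) h4 h4 (by exact_mod_cast h2) ha0 hc0 hs0 hcop
        (u := 1) (v := -1) (w := -1) one_ne_zero (by simp) (by simp)
        (by
          simp only [map_one, map_neg, one_mul]
          linear_combination - hs2)
      exact ⟨this.1, this.2.1⟩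
  rw [ha, hc, Polynomial.eq_C_of_natDegree_eq_zero hdeg.1,
    Polynomial.eq_C_of_natDegree_eq_zero hdeg.2]
  simp only [Polynomial.mul_comp, Polynomial.C_comp]
  ring

theorem exists_point [IsAlgClosed k] {σ : Type*} [Finite σ] {J : Ideal (MvPolynomial σ k)}
    (hJ : J.IsPrime) {f : MvPolynomial σ k} (hf : f ∉ J) :
    ∃ v ∈ zeroLocus k J, eval v f ≠ 0 := by
  by_contra hcon
  push Not at hcon
  apply hf
  have h := vanishingIdeal_zeroLocus_eq_radical (K := k) J
  rw [hJ.isRadical.radical] at h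
  rw [← h, mem_vanishingIdeal_iff]
  intro x hx
  have := hcon x hx
  rwa [← coe_aeval_eq_eval] at this

section
variable {M : ℕ}

/-- Substitution of polynomials in `T` for the variables. -/
theorem eval_aeval_poly {R : Type*} [CommRing R] [Algebra k R] (φ : R →+* k)
    (hφ : ∀ c : k, φ (algebraMap k R c) = c) {τ : Type*} (g : τ → R) (F : MvPolynomial τ k) :
    φ (aeval g F) = eval (fun i => φ (g i)) F := by
  have : (φ.comp (aeval g : MvPolynomial τ k →ₐ[k] R).toRingHom) =
      (eval (fun i => φ (g i))) := by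
    apply MvPolynomial.ringHom_ext
    · intro r
      simp [hφ]
    · intro i
      simp
  exact congrArg (fun f => f F) (congrArg DFunLike.coe this)

/-- The relation on the fibre over a point `β` with `π (β) ≠ 0`. -/
theorem rel_of_ne (h2 : (2 : k) ≠ 0) [IsAlgClosed k] (β : Fin M → k) {c : k} (hc : c ≠ 0)
    (H : Fin 4 → MvPolynomial (Fin M ⊕ Fin 4) k) (N : MvPolynomial (Fin M ⊕ Fin 4) k)
    (ha : ∀ v : Fin 4 → k, v 3 = 1 → eval v (poly c) = 0 → eval (Sum.elim β v) N ≠ 0 →
      eval (fun l => eval (Sum.elim β v) (H l)) (poly (0 : k)) = 0)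
    (p x s : k) (hv : eval (![p, x, s, 1] : Fin 4 → k) (poly c) = 0) :
    eval (Sum.elim β (![p, x, s, 1] : Fin 4 → k)) N *
      (eval (Sum.elim β (![p, x, s, 1] : Fin 4 → k)) (H 1) *
          eval (Sum.elim β (![p, -x, s, 1] : Fin 4 → k)) (H 3) -
        eval (Sum.elim β (![p, -x, s, 1] : Fin 4 → k)) (H 1) *
          eval (Sum.elim β (![p, x, s, 1] : Fin 4 → k)) (H 3)) = 0 := by
  set q : k := x ^ 2 - c * s with hq
  -- the substitution
  set ℓ : Fin M ⊕ Fin 4 → Polynomial k := Sum.elim (fun i => Polynomial.C (β i))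
    ![Polynomial.C p, Polynomial.X, Polynomial.C c⁻¹ * (Polynomial.X ^ 2 - Polynomial.C q), 1]
    with hℓ
  have hev : ∀ (t : k) (F : MvPolynomial (Fin M ⊕ Fin 4) k),
      (aeval ℓ F : Polynomial k).eval t =
        eval (Sum.elim β (![p, t, c⁻¹ * (t ^ 2 - q), 1] : Fin 4 → k)) F := by
    intro t F
    have h := eval_aeval_poly (Polynomial.evalRingHom t) (by intro c; simp) ℓ F
    rw [Polynomial.coe_evalRingHom] at h
    rw [h]
    congr 2
    funext i
    rcases i with i | i
    · simp [hℓ]
    · fin_cases i <;> simp [hℓ]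
  have hx : c⁻¹ * (x ^ 2 - q) = s := by
    rw [hq]
    field_simp
    ring
  have hx' : c⁻¹ * ((-x) ^ 2 - q) = s := by
    rw [hq]
    field_simp
    ring
  have e1 : ∀ F : MvPolynomial (Fin M ⊕ Fin 4) k,
      eval (Sum.elim β (![p, x, s, 1] : Fin 4 → k)) F = (aeval ℓ F : Polynomial k).eval x := by
    intro F
    rw [hev, hx]
  have e2 : ∀ F : MvPolynomial (Fin M ⊕ Fin 4) k,
      eval (Sum.elim β (![p, -x, s, 1] : Fin 4 → k)) F =
        (aeval ℓ F : Polynomial k).eval (-x) := by
    intro F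
    rw [hev, hx']
  have hpq : p ^ 2 = q ^ 3 - q := by
    rw [eval_poly] at hv
    simp only [Matrix.cons_val] at hv
    rw [hq]
    linear_combination hv
  by_cases hN : (aeval ℓ N : Polynomial k) = 0
  · rw [e1 N, hN]
    simp
  · have hG : (aeval ℓ N : Polynomial k) *
        ((aeval ℓ (H 0) : Polynomial k) ^ 2 * (aeval ℓ (H 3) : Polynomial k) ^ 4 -
          ((aeval ℓ (H 1) : Polynomial k) ^ 6 -
            (aeval ℓ (H 1) : Polynomial k) ^ 2 * (aeval ℓ (H 3) : Polynomial k) ^ 4)) = 0 := by
      apply Polynomial.funext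
      intro t
      simp only [Polynomial.eval_mul, Polynomial.eval_sub, Polynomial.eval_pow, hev,
        Polynomial.eval_zero]
      by_cases hNt : eval (Sum.elim β (![p, t, c⁻¹ * (t ^ 2 - q), 1] : Fin 4 → k)) N = 0
      · rw [hNt, zero_mul]
      · have h := ha ![p, t, c⁻¹ * (t ^ 2 - q), 1] (by simp) (by
          rw [eval_poly]
          simp only [Matrix.cons_val]
          have : t ^ 2 - c * (c⁻¹ * (t ^ 2 - q)) * 1 = q := by
            field_simp
            ring
          rw [this, hpq]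
          ring) hNt
        rw [eval_poly] at h
        rw [mul_eq_zero]
        right
        rw [← h]
        ring
    rw [mul_eq_zero, or_iff_right hN] at hG
    have hrat := ratio_const h2 (sub_eq_zero.1 hG)
    have := congrArg (Polynomial.eval x) hrat
    simp only [Polynomial.eval_mul, Polynomial.eval_comp, Polynomial.eval_neg,
      Polynomial.eval_X] at this
    rw [e1, e1, e1, e2, e2, this, sub_self, mul_zero]

end

end Pool.Agent.X329.Triv
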