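import Mathlib
import Pool.Agent.X329.Triv.Core

/-!
# The obstruction, continued
-/

set_option autoImplicit false

namespace Pool.Agent.X329.Triv

open MvPolynomial

variable {k : Type*} [Field k] {M : ℕ}

/-- A general point of the special fibre. -/
theorem exists_good_point [IsAlgClosed k] (h2 : (2 : k) ≠ 0) (N : MvPolynomial (Fin 4) k)
    (hN : ∃ e : ℕ, ∀ (c : k) (v : Fin 4 → k), eval (fun i => c * v i) N = c ^ e * eval v N)
    (v₀ : Fin 4 → k) (hv₀ : eval v₀ (poly (0 : k)) = 0) (hv₀N : eval v₀ N ≠ 0) :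
    ∃ p x s : k, x ≠ 0 ∧ p ^ 2 = x ^ 6 - x ^ 2 ∧ eval ![p, x, s, 1] N ≠ 0 ∧
      eval ![p, -x, s, 1] N ≠ 0 ∧ eval ![-p, x, s, 1] N ≠ 0 ∧ eval ![-p, -x, s, 1] N ≠ 0 := by
  set J : Ideal (MvPolynomial (Fin 4) k) := Ideal.span {poly (0 : k)} with hJ
  have hirr : Irreducible (poly (0 : k)) := irreducible_poly h2 (RingHom.id k) 0
  have hprime : J.IsPrime := by
    rw [hJ, Ideal.span_singleton_prime hirr.ne_zero]
    exact hirr.prime
  have hnot : ∀ (f : MvPolynomial (Fin 4) k) (v : Fin 4 → k), eval v (poly (0 : k)) = 0 →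
      eval v f ≠ 0 → f ∉ J := by
    intro f v hv hf hmem
    rw [hJ, Ideal.mem_span_singleton] at hmem
    obtain ⟨g, rfl⟩ := hmem
    exact hf (by rw [map_mul, hv, zero_mul])
  have hsub : ∀ (a b : k) (v : Fin 4 → k),
      eval v (aeval (![C a * X 0, C b * X 1, X 2, X 3] : Fin 4 → MvPolynomial (Fin 4) k) N) =
        eval ![a * v 0, b * v 1, v 2, v 3] N := by
    intro a b v
    have h := eval_aeval_poly (eval v) (by intro c; simp)
      (![C a * X 0, C b * X 1, X 2, X 3] : Fin 4 → MvPolynomial (Fin 4) k) N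
    rw [h]
    congr 2
    funext i
    fin_cases i <;> simp
  have hflip : ∀ a b : k, a ^ 2 = 1 → b ^ 2 = 1 →
      aeval (![C a * X 0, C b * X 1, X 2, X 3] : Fin 4 → MvPolynomial (Fin 4) k) N ∉ J := by
    intro a b ha hb
    apply hnot _ ![a * v₀ 0, b * v₀ 1, v₀ 2, v₀ 3]
    · rw [eval_poly] at hv₀ ⊢
      simp only [Matrix.cons_val]
      have hb6 : b ^ 6 = 1 := by
        rw [show b ^ 6 = (b ^ 2) ^ 3 by ring, hb, one_pow]
      linear_combination hv₀ + (v₀ 0 ^ 2 * v₀ 3 ^ 4) * ha - v₀ 1 ^ 6 * hb6 +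
        v₀ 3 ^ 4 * v₀ 1 ^ 2 * hb
    · rw [hsub]
      simp only [Matrix.cons_val]
      have : (![a * (a * v₀ 0), b * (b * v₀ 1), v₀ 2, v₀ 3] : Fin 4 → k) = v₀ := by
        funext i
        fin_cases i
        · simp [← mul_assoc, ← pow_two, ha]
        · simp [← mul_assoc, ← pow_two, hb]
        · rfl
        · rfl
      rw [this]
      exact hv₀N
  have hX1 : (X 1 : MvPolynomial (Fin 4) k) ∉ J :=
    hnot _ ![0, 1, 0, 1] (by rw [eval_poly]; simp) (by simp)
  have hX3 : (X 3 : MvPolynomial (Fin 4) k) ∉ J :=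
    hnot _ ![0, 1, 0, 1] (by rw [eval_poly]; simp) (by simp)
  have hprod : (X 1 * X 3 *
      (aeval (![C 1 * X 0, C 1 * X 1, X 2, X 3] : Fin 4 → MvPolynomial (Fin 4) k) N *
       aeval (![C 1 * X 0, C (-1) * X 1, X 2, X 3] : Fin 4 → MvPolynomial (Fin 4) k) N) *
      (aeval (![C (-1) * X 0, C 1 * X 1, X 2, X 3] : Fin 4 → MvPolynomial (Fin 4) k) N *
       aeval (![C (-1) * X 0, C (-1) * X 1, X 2, X 3] : Fin 4 → MvPolynomial (Fin 4) k) N)) ∉ J := by
    have hm := fun a b => (hprime.mul_mem_iff_mem_or_mem (x := a) (y := b)).not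
    simp only [hm, not_or]
    exact ⟨⟨⟨hX1, hX3⟩, hflip _ _ (by ring) (by ring), hflip _ _ (by ring) (by ring)⟩,
      hflip _ _ (by ring) (by ring), hflip _ _ (by ring) (by ring)⟩
  obtain ⟨v, hv, hne⟩ := exists_point hprime hprod
  have hv0 : eval v (poly (0 : k)) = 0 := by
    have := hv _ (Ideal.subset_span rfl : poly (0 : k) ∈ J)
    rwa [← coe_aeval_eq_eval]
  simp only [map_mul, hsub, eval_X, mul_ne_zero_iff, one_mul, neg_mul] at hne
  obtain ⟨⟨⟨h1, h3⟩, n1, n2⟩, n3, n4⟩ := hne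
  obtain ⟨e, he⟩ := hN
  have hscale : ∀ w : Fin 4 → k, eval w N ≠ 0 → eval (fun i => (v 3)⁻¹ * w i) N ≠ 0 := by
    intro w hw
    rw [he]
    exact mul_ne_zero (pow_ne_zero _ (inv_ne_zero h3)) hw
  have hvec : ∀ a b : k, (fun i => (v 3)⁻¹ * (![a, b, v 2, v 3] : Fin 4 → k) i) =
      ![(v 3)⁻¹ * a, (v 3)⁻¹ * b, (v 3)⁻¹ * v 2, 1] := by
    intro a b
    funext i
    fin_cases i
    · rfl
    · rfl
    · rfl
    · simp [h3]
  have m1 := hscale _ n1
  have m2 := hscale _ n2
  have m3 := hscale _ n3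
  have m4 := hscale _ n4
  rw [hvec] at m1 m2 m3 m4
  refine ⟨(v 3)⁻¹ * v 0, (v 3)⁻¹ * v 1, (v 3)⁻¹ * v 2, mul_ne_zero (inv_ne_zero h3) h1, ?_, m1,
    ?_, ?_, ?_⟩
  · rw [eval_poly] at hv0
    field_simp
    linear_combination hv0
  · simpa using m2
  · simpa using m3
  · simpa using m4

/-- The main contradiction. -/
theorem core [IsAlgClosed k] (h2 : (2 : k) ≠ 0) (I : Ideal (MvPolynomial (Fin M) k))
    (hI : I.IsPrime) (π : MvPolynomial (Fin M) k) (b' : Fin M → k) (hb' : b' ∈ zeroLocus k I)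
    (hπ0 : eval b' π = 0) (hπ1 : ∃ β ∈ zeroLocus k I, eval β π ≠ 0)
    (H : Fin 4 → MvPolynomial (Fin M ⊕ Fin 4) k) (N : MvPolynomial (Fin M ⊕ Fin 4) k)
    (ha : ∀ β ∈ zeroLocus k I, ∀ v : Fin 4 → k, v 3 = 1 → eval v (poly (eval β π)) = 0 →
      eval (Sum.elim β v) N ≠ 0 →
        eval (fun l => eval (Sum.elim β v) (H l)) (poly (0 : k)) = 0)
    (hb : ∀ v : Fin 4 → k, v 3 = 1 → eval v (poly (0 : k)) = 0 → eval (Sum.elim b' v) N ≠ 0 →
      ∃ c, c ≠ 0 ∧ ∀ l, eval (Sum.elim b' v) (H l) = c * v l)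
    (hN : ∃ e : ℕ, ∀ (c : k) (v : Fin 4 → k),
      eval (Sum.elim b' (fun i => c * v i)) N = c ^ e * eval (Sum.elim b' v) N)
    (v₀ : Fin 4 → k) (hv₀ : eval v₀ (poly (0 : k)) = 0) (hv₀N : eval (Sum.elim b' v₀) N ≠ 0) :
    False := by
  -- the general point
  have hNb : ∀ v : Fin 4 → k, eval v (aeval (Sum.elim (fun i => C (b' i)) X :
      Fin M ⊕ Fin 4 → MvPolynomial (Fin 4) k) N) = eval (Sum.elim b' v) N := by
    intro v
    have h := eval_aeval_poly (eval v) (by intro c; simp) (Sum.elim (fun i => C (b' i)) X :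
      Fin M ⊕ Fin 4 → MvPolynomial (Fin 4) k) N
    rw [h]
    congr 2
    funext i
    rcases i with i | i <;> simp
  obtain ⟨p, x, s, hx, hp, n1, n2, n3, n4⟩ := exists_good_point h2
    (aeval (Sum.elim (fun i => C (b' i)) X : Fin M ⊕ Fin 4 → MvPolynomial (Fin 4) k) N)
    (by
      obtain ⟨e, he⟩ := hN
      refine ⟨e, fun c v => ?_⟩
      rw [hNb, hNb, he]) v₀ hv₀ (by rw [hNb]; exact hv₀N)
  rw [hNb] at n1 n2 n3 n4
  -- the polynomials in `T` over the coordinate ring
  set g : k → Fin M ⊕ Fin 4 → Polynomial (MvPolynomial (Fin M) k) := fun a =>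
    Sum.elim (fun i => Polynomial.C (X i))
      ![Polynomial.X, Polynomial.C (C a), Polynomial.C (C s), 1] with hg
  set D : Polynomial (MvPolynomial (Fin M) k) := aeval (g x) N *
    (aeval (g x) (H 1) * aeval (g (-x)) (H 3) - aeval (g (-x)) (H 1) * aeval (g x) (H 3)) with hD
  have hev : ∀ (β : Fin M → k) (t a : k) (F : MvPolynomial (Fin M ⊕ Fin 4) k),
      Polynomial.eval₂ (eval β) t (aeval (g a) F) = eval (Sum.elim β ![t, a, s, 1]) F := by
    intro β t a F
    have h := eval_aeval_poly (Polynomial.eval₂RingHom (eval β) t) (by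
      intro c
      rw [Polynomial.coe_eval₂RingHom, Polynomial.algebraMap_apply, Polynomial.eval₂_C]
      simp) (g a) F
    rw [Polynomial.coe_eval₂RingHom] at h
    rw [h]
    congr 2
    funext i
    rcases i with i | i
    · simp [hg]
    · fin_cases i <;> simp [hg]
  have hDev : ∀ (β : Fin M → k) (t : k), Polynomial.eval₂ (eval β) t D =
      eval (Sum.elim β ![t, x, s, 1]) N *
        (eval (Sum.elim β ![t, x, s, 1]) (H 1) * eval (Sum.elim β ![t, -x, s, 1]) (H 3) -
          eval (Sum.elim β ![t, -x, s, 1]) (H 1) * eval (Sum.elim β ![t, x, s, 1]) (H 3)) := by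
    intro β t
    rw [hD]
    simp only [Polynomial.eval₂_mul, Polynomial.eval₂_sub, hev]
  -- reduction modulo `T ^ 2 - η`
  set η : MvPolynomial (Fin M) k := (C (x ^ 2) - π * C s) ^ 3 - (C (x ^ 2) - π * C s) with hη
  have hmonic : (Polynomial.X ^ 2 - Polynomial.C η : Polynomial (MvPolynomial (Fin M) k)).Monic :=
    Polynomial.monic_X_pow_sub_C η two_ne_zero
  obtain ⟨A, B, hAB⟩ : ∃ A B : MvPolynomial (Fin M) k,
      D %ₘ (Polynomial.X ^ 2 - Polynomial.C η) = Polynomial.C A * Polynomial.X + Polynomial.C B := by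
    apply Polynomial.exists_eq_X_add_C_of_natDegree_le_one
    have h := Polynomial.natDegree_modByMonic_lt D hmonic (by
      intro h
      have := congrArg Polynomial.natDegree h
      rw [Polynomial.natDegree_X_pow_sub_C, Polynomial.natDegree_one] at this
      omega)
    rw [Polynomial.natDegree_X_pow_sub_C] at h
    omega
  have hred : ∀ (β : Fin M → k) (t : k), t ^ 2 = eval β η →
      Polynomial.eval₂ (eval β) t D = eval β A * t + eval β B := by
    intro β t ht
    conv_lhs => rw [← Polynomial.modByMonic_add_div D (Polynomial.X ^ 2 - Polynomial.C η)]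
    rw [hAB]
    simp only [Polynomial.eval₂_add, Polynomial.eval₂_mul, Polynomial.eval₂_sub,
      Polynomial.eval₂_pow, Polynomial.eval₂_X, Polynomial.eval₂_C, ht, sub_self, zero_mul,
      add_zero]
  have hηev : ∀ β : Fin M → k, eval β η =
      (x ^ 2 - eval β π * s) ^ 3 - (x ^ 2 - eval β π * s) := by
    intro β
    simp [hη]
  -- vanishing where `π ≠ 0`
  have hvan : ∀ β ∈ zeroLocus k I, eval β π ≠ 0 →
      eval β B ^ 2 - eval β A ^ 2 * eval β η = 0 := by
    intro β hβ hπβ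
    obtain ⟨t, ht⟩ := IsAlgClosed.exists_pow_nat_eq (eval β η) (n := 2) (by norm_num)
    have hzero : ∀ t : k, t ^ 2 = eval β η → Polynomial.eval₂ (eval β) t D = 0 := by
      intro t ht
      rw [hDev]
      apply rel_of_ne h2 β hπβ H N (ha β hβ)
      rw [eval_poly]
      simp only [Matrix.cons_val]
      rw [ht, hηev]
      ring
    have e1 := hzero t ht
    have e2 := hzero (-t) (by rw [neg_sq, ht])
    rw [hred β t ht] at e1
    rw [hred β (-t) (by rw [neg_sq, ht])] at e2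
    rw [← ht]
    linear_combination (eval β B - eval β A * t) * e1
  -- vanishing everywhere
  have hmem : B ^ 2 - A ^ 2 * η ∈ I := by
    have hall : π * (B ^ 2 - A ^ 2 * η) ∈ I := by
      have h := vanishingIdeal_zeroLocus_eq_radical (K := k) I
      rw [hI.isRadical.radical] at h
      rw [← h, mem_vanishingIdeal_iff]
      intro β hβ
      rw [aeval_eq_eval]
      by_cases h0 : eval β π = 0
      · rw [map_mul, h0, zero_mul]
      · rw [map_mul, map_sub, map_mul, map_pow, map_pow, hvan β hβ h0, mul_zero]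
    rcases hI.mem_or_mem hall with h | h
    · exfalso
      obtain ⟨β, hβ, hne⟩ := hπ1
      apply hne
      have := hβ _ h
      rwa [← coe_aeval_eq_eval]
    · exact h
  have hb0 : eval b' B ^ 2 - eval b' A ^ 2 * eval b' η = 0 := by
    have := hb' _ hmem
    rw [aeval_eq_eval] at this
    simpa using this
  have hηb : eval b' η = p ^ 2 := by
    rw [hηev, hπ0, hp]
    ring
  have hfin : Polynomial.eval₂ (eval b') p D = 0 ∨ Polynomial.eval₂ (eval b') (-p) D = 0 := by
    rw [hred b' p hηb.symm, hred b' (-p) (by rw [neg_sq, hηb]), ← mul_eq_zero]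
    rw [hηb] at hb0
    linear_combination hb0
  -- the contradiction
  have hcon : ∀ t : k, t ^ 2 = x ^ 6 - x ^ 2 → eval (Sum.elim b' ![t, x, s, 1]) N ≠ 0 →
      eval (Sum.elim b' ![t, -x, s, 1]) N ≠ 0 → Polynomial.eval₂ (eval b') t D ≠ 0 := by
    intro t ht m1 m2 h0
    obtain ⟨c, hc, hHc⟩ := hb ![t, x, s, 1] (by simp) (by
      rw [eval_poly]
      simp only [Matrix.cons_val]
      rw [ht]
      ring) m1
    obtain ⟨c', hc', hHc'⟩ := hb ![t, -x, s, 1] (by simp) (by
      rw [eval_poly]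
      simp only [Matrix.cons_val]
      rw [ht]
      ring) m2
    rw [hDev, hHc 1, hHc 3, hHc' 1, hHc' 3] at h0
    simp only [Matrix.cons_val] at h0
    rcases mul_eq_zero.1 h0 with h | h
    · exact m1 h
    · have : 2 * (c * c' * x) = 0 := by linear_combination h
      exact (mul_ne_zero h2 (mul_ne_zero (mul_ne_zero hc hc') hx)) this
  rcases hfin with h | h
  · exact hcon p hp n1 n2 h
  · exact hcon (-p) (by rw [neg_sq, hp]) n3 n4 h

end Pool.Agent.X329.Triv
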