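import Mathlib
import Pool.Agent.X329.Triv.Core2

/-!
# There is no trivialization at the origin
-/

set_option autoImplicit false

namespace Pool.Agent.X329.Triv

open MvPolynomial

variable {k : Type*} [Field k]

theorem Rep.rep_eq {n : ℕ} {p : PP k n} {v : Fin (n + 1) → k} (h : Rep p v) :
    ∃ c : k, c ≠ 0 ∧ p.rep = fun i => c * v i := by
  obtain ⟨hv, rfl⟩ := h
  exact rep_mk v hv

theorem eval_comp {M n m : ℕ} (b' β : Fin M → k) (v : Fin (n + 1) → k)
    (F : Fin (m + 1) → Poly k M n) (G : Poly k M m) :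
    eval (Sum.elim β v) (aeval (Sum.elim (fun i => C (b' i)) F : Fin M ⊕ Fin (m + 1) → Poly k M n) G)
      = eval (Sum.elim b' (fun j => eval (Sum.elim β v) (F j))) G := by
  have h := eval_aeval_poly (eval (Sum.elim β v)) (by intro c; simp)
    (Sum.elim (fun i => C (b' i)) F : Fin M ⊕ Fin (m + 1) → Poly k M n) G
  rw [h]
  congr 2
  funext i
  rcases i with i | i <;> simp

theorem not_hasTrivialization [IsAlgClosed k] (h2 : (2 : k) ≠ 0) {m : ℕ} (Z : Set (PP k m)) :
    ¬ HasTrivialization (fib (k := k)) Z 0 := by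
  rintro ⟨M, B', π, b', O, O', φ, ψ, ⟨I, hI, rfl⟩, hb', hπ0, hπ1, ⟨IO, hIO, hO⟩, ⟨IO', hIO', hO'⟩,
    ⟨p₀, hp₀⟩, hφ, hψ, hφψ, hψφ⟩
  obtain ⟨d, F, hF, ⟨j0, hj0⟩, hFrep⟩ := hφ (b', p₀) hp₀
  have hz₀ := (hφψ (b', p₀) hp₀).1
  obtain ⟨e, G, hG, ⟨l0, hl0⟩, hGrep⟩ := hψ (b', φ (b', p₀)) hz₀
  have hp₀O := hp₀.1
  rw [hO] at hp₀O
  obtain ⟨fO, hfO, hfO0⟩ := hp₀O
  have hz₀O := hz₀.1
  rw [hO'] at hz₀O
  obtain ⟨fO', hfO', hfO'0⟩ := hz₀O
  obtain ⟨d1, hd1⟩ := hIO fO hfO
  obtain ⟨d2, hd2⟩ := hIO' fO' hfO'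
  set S : Fin M ⊕ Fin (m + 1) → Poly k M 3 := Sum.elim (fun i => C (b' i)) F with hS
  -- the construction at a point
  have step : ∀ β ∈ zeroLocus k I, ∀ v : Fin 4 → k, v 3 = 1 → eval v (poly (eval β π)) = 0 →
      eval (Sum.elim β v) (fO * F j0 * aeval S fO' * aeval S (G l0)) ≠ 0 →
      ∃ (hv : v ≠ 0) (c : k), c ≠ 0 ∧ (β, Projectivization.mk k v hv) ∈ O ∩
        baseChange (fib (k := k)) (zeroLocus k I) π ∧
        (b', ψ (b', φ (β, Projectivization.mk k v hv))) ∈ O ∩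
          baseChange (fib (k := k)) (zeroLocus k I) π ∧
        (ψ (b', φ (β, Projectivization.mk k v hv))).rep =
          fun l => c * eval (Sum.elim β v) (aeval S (G l)) := by
    intro β hβ v hv3 hv hN
    have hv0 : v ≠ 0 := by
      rintro rfl
      simp at hv3
    obtain ⟨c, hc, hrep⟩ := rep_mk v hv0
    simp only [map_mul, mul_ne_zero_iff, hS, eval_comp] at hN
    obtain ⟨⟨⟨n1, n2⟩, n3⟩, n4⟩ := hN
    have hy : (β, Projectivization.mk k v hv0) ∈ O ∩
        baseChange (fib (k := k)) (zeroLocus k I) π := by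
      refine ⟨?_, hβ, ?_⟩
      · rw [hO]
        refine ⟨fO, hfO, ?_⟩
        change eval (Sum.elim β (Projectivization.mk k v hv0).rep) fO ≠ 0
        rw [hrep, hd1.eval_smul]
        exact mul_ne_zero (pow_ne_zero _ hc) n1
      · change eval (Projectivization.mk k v hv0).rep (poly (eval β π)) = 0
        rw [hrep, hom_eval_smul (poly_homog _), hv, mul_zero]
    have hFy : Rep (φ (β, Projectivization.mk k v hv0))
        (fun j => ev (β, Projectivization.mk k v hv0) (F j)) := by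
      apply hFrep _ hy
      refine ⟨j0, ?_⟩
      change eval (Sum.elim β (Projectivization.mk k v hv0).rep) (F j0) ≠ 0
      rw [hrep, (hF j0).eval_smul]
      exact mul_ne_zero (pow_ne_zero _ hc) n2
    obtain ⟨c1, hc1, hrep1⟩ := hFy.rep_eq
    have hrep1' : (φ (β, Projectivization.mk k v hv0)).rep =
        fun j => (c1 * c ^ d) * eval (Sum.elim β v) (F j) := by
      rw [hrep1]
      funext j
      change c1 * eval (Sum.elim β (Projectivization.mk k v hv0).rep) (F j) = _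
      rw [hrep, (hF j).eval_smul, mul_assoc]
    have hc1' : c1 * c ^ d ≠ 0 := mul_ne_zero hc1 (pow_ne_zero _ hc)
    have hz : (b', φ (β, Projectivization.mk k v hv0)) ∈ O' ∩ zeroLocus k I ×ˢ Z := by
      refine ⟨?_, hb', ((hφψ _ hy).1).2.2⟩
      rw [hO']
      refine ⟨fO', hfO', ?_⟩
      change eval (Sum.elim b' (φ (β, Projectivization.mk k v hv0)).rep) fO' ≠ 0
      rw [hrep1', hd2.eval_smul]
      exact mul_ne_zero (pow_ne_zero _ hc1') n3
    have hGz : Rep (ψ (b', φ (β, Projectivization.mk k v hv0)))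
        (fun j => ev (b', φ (β, Projectivization.mk k v hv0)) (G j)) := by
      apply hGrep _ hz
      refine ⟨l0, ?_⟩
      change eval (Sum.elim b' (φ (β, Projectivization.mk k v hv0)).rep) (G l0) ≠ 0
      rw [hrep1', (hG l0).eval_smul]
      exact mul_ne_zero (pow_ne_zero _ hc1') n4
    obtain ⟨c2, hc2, hrep2⟩ := hGz.rep_eq
    refine ⟨hv0, c2 * (c1 * c ^ d) ^ e, mul_ne_zero hc2 (pow_ne_zero _ hc1'), hy, (hψφ _ hz).1, ?_⟩
    rw [hrep2]
    funext j
    change c2 * eval (Sum.elim b' (φ (β, Projectivization.mk k v hv0)).rep) (G j) = _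
    rw [hrep1', (hG j).eval_smul, hS, eval_comp, mul_assoc]
  refine core h2 I hI π b' hb' hπ0 hπ1 (fun l => aeval S (G l))
    (fO * F j0 * aeval S fO' * aeval S (G l0)) ?_ ?_ ?_ p₀.rep ?_ ?_
  · intro β hβ v hv3 hv hN
    obtain ⟨hv0, c, hc, -, h1, h2⟩ := step β hβ v hv3 hv hN
    have h3 : eval (ψ (b', φ (β, Projectivization.mk k v hv0))).rep (poly (eval b' π)) = 0 :=
      h1.2.2
    rw [hπ0, h2, hom_eval_smul (poly_homog _)] at h3
    exact (mul_eq_zero.1 h3).resolve_left (pow_ne_zero _ hc)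
  · intro v hv3 hv hN
    obtain ⟨hv0, c, hc, hy, -, h3⟩ := step b' hb' v hv3 (by rw [hπ0]; exact hv) hN
    have h4 := (hφψ _ hy).2
    change ψ (b', φ (b', Projectivization.mk k v hv0)) = Projectivization.mk k v hv0 at h4
    rw [h4] at h3
    obtain ⟨c', hc', hrep⟩ := rep_mk v hv0
    rw [hrep] at h3
    refine ⟨c' / c, div_ne_zero hc' hc, fun l => ?_⟩
    have h5 := congrFun h3 l
    change c' * v l = c * _ at h5
    field_simp
    linear_combination - h5
  · refine ⟨d1 + d + d * d2 + d * e, fun c v => ?_⟩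
    simp only [map_mul, hS, eval_comp, hd1.eval_smul, (hF j0).eval_smul]
    have : (fun j => eval (Sum.elim b' (fun i => c * v i)) (F j)) =
        fun j => c ^ d * eval (Sum.elim b' v) (F j) := by
      funext j
      rw [(hF j).eval_smul]
    rw [this, hd2.eval_smul, (hG l0).eval_smul]
    ring
  · have h3 : eval p₀.rep (poly (eval b' π)) = 0 := hp₀.2.2
    rwa [hπ0] at h3
  · have hFy : Rep (φ (b', p₀)) (fun j => ev (b', p₀) (F j)) := hFrep _ hp₀ ⟨j0, hj0⟩
    obtain ⟨c1, hc1, hrep1⟩ := hFy.rep_eq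
    simp only [map_mul, mul_ne_zero_iff, hS, eval_comp]
    refine ⟨⟨⟨hfO0, hj0⟩, ?_⟩, ?_⟩
    · intro h0
      apply hfO'0
      change eval (Sum.elim b' (φ (b', p₀)).rep) fO' = 0
      rw [hrep1, hd2.eval_smul]
      change _ * eval (Sum.elim b' (fun j => eval (Sum.elim b' p₀.rep) (F j))) fO' = 0
      rw [h0, mul_zero]
    · intro h0
      apply hl0
      change eval (Sum.elim b' (φ (b', p₀)).rep) (G l0) = 0
      rw [hrep1, (hG l0).eval_smul]
      change _ * eval (Sum.elim b' (fun j => eval (Sum.elim b' p₀.rep) (F j))) (G l0) = 0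
      rw [h0, mul_zero]

end Pool.Agent.X329.Triv
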