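import Mathlib
import Pool.Agent.X329.Triv.Final

/-!
# There are trivializations at the other points
-/

set_option autoImplicit false
set_option linter.unusedSimpArgs false

namespace Pool.Agent.X329.Triv

open MvPolynomial

variable {k : Type*} [Field k]

theorem isHom_inl {M n : ℕ} (i : Fin M) : IsHom (X (Sum.inl i) : Poly k M n) 0 := by
  intro m hm
  rw [support_X, Finset.mem_singleton] at hm
  subst hm
  simp

theorem isHom_inr {M n : ℕ} (i : Fin (n + 1)) : IsHom (X (Sum.inr i) : Poly k M n) 1 := by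
  intro m hm
  rw [support_X, Finset.mem_singleton] at hm
  subst hm
  simp [Finsupp.single_apply]

theorem isHom_mul {M n : ℕ} (i : Fin M) (j : Fin (n + 1)) :
    IsHom (X (Sum.inl i) * X (Sum.inr j) : Poly k M n) 1 := by
  intro m hm
  have h : (X (Sum.inl i) * X (Sum.inr j) : Poly k M n) =
      monomial (Finsupp.single (Sum.inl i) 1 + Finsupp.single (Sum.inr j) 1) 1 := by
    simp only [X, monomial_mul, mul_one]
  rw [h] at hm
  have := support_monomial_subset hm
  rw [Finset.mem_singleton] at this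
  subst this
  simp [Finsupp.single_apply]

/-- Over the complement of the origin the family is isomorphic to a product. -/
theorem hasTrivialization_of_ne (b : k) (hb : b ≠ 0) : HasTrivialization (fib (k := k)) (fib 1) b := by
  set F : Fin 4 → Poly k 1 3 := ![X (Sum.inr 0), X (Sum.inr 1), X (Sum.inl 0) * X (Sum.inr 2),
    X (Sum.inr 3)] with hF
  set G : Fin 4 → Poly k 1 3 := ![X (Sum.inl 0) * X (Sum.inr 0), X (Sum.inl 0) * X (Sum.inr 1),
    X (Sum.inr 2), X (Sum.inl 0) * X (Sum.inr 3)] with hG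
  have hFh : ∀ j, IsHom (F j) 1 := by
    intro j
    fin_cases j
    · exact isHom_inr 0
    · exact isHom_inr 1
    · exact isHom_mul 0 2
    · exact isHom_inr 3
  have hGh : ∀ j, IsHom (G j) 1 := by
    intro j
    fin_cases j
    · exact isHom_mul 0 0
    · exact isHom_mul 0 1
    · exact isHom_inr 2
    · exact isHom_mul 0 3
  set O : Set ((Fin 1 → k) × PP k 3) := {z | z.1 0 ≠ 0} with hO
  have hOo : IsOpenProd O := by
    refine ⟨{X (Sum.inl 0)}, fun f hf => ⟨0, ?_⟩, ?_⟩
    · rw [Set.mem_singleton_iff.1 hf]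
      exact isHom_inl 0
    · ext z
      simp [hO, ev]
  have evF : ∀ z : (Fin 1 → k) × PP k 3, (fun j => ev z (F j)) =
      ![z.2.rep 0, z.2.rep 1, z.1 0 * z.2.rep 2, z.2.rep 3] := by
    intro z
    funext j
    fin_cases j <;> simp [hF, ev]
  have evG : ∀ z : (Fin 1 → k) × PP k 3, (fun j => ev z (G j)) =
      ![z.1 0 * z.2.rep 0, z.1 0 * z.2.rep 1, z.2.rep 2, z.1 0 * z.2.rep 3] := by
    intro z
    funext j
    fin_cases j <;> simp [hG, ev]
  have F0 : ∀ z, ev z (F 0) = z.2.rep 0 := fun z => congrFun (evF z) 0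
  have F1 : ∀ z, ev z (F 1) = z.2.rep 1 := fun z => congrFun (evF z) 1
  have F2 : ∀ z, ev z (F 2) = z.1 0 * z.2.rep 2 := fun z => congrFun (evF z) 2
  have F3 : ∀ z, ev z (F 3) = z.2.rep 3 := fun z => congrFun (evF z) 3
  have G0 : ∀ z, ev z (G 0) = z.1 0 * z.2.rep 0 := fun z => congrFun (evG z) 0
  have G1 : ∀ z, ev z (G 1) = z.1 0 * z.2.rep 1 := fun z => congrFun (evG z) 1
  have G2 : ∀ z, ev z (G 2) = z.2.rep 2 := fun z => congrFun (evG z) 2
  have G3 : ∀ z, ev z (G 3) = z.1 0 * z.2.rep 3 := fun z => congrFun (evG z) 3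
  have neF : ∀ z ∈ O, (fun j => ev z (F j)) ≠ 0 := by
    intro z hz h
    rw [evF] at h
    apply z.2.rep_nonzero
    have e0 := congrFun h 0
    have e1 := congrFun h 1
    have e2 := congrFun h 2
    have e3 := congrFun h 3
    have hz0 : z.1 0 ≠ 0 := hz
    simp [hz0] at e0 e1 e2 e3
    funext i
    fin_cases i <;> assumption
  have neG : ∀ z ∈ O, (fun j => ev z (G j)) ≠ 0 := by
    intro z hz h
    rw [evG] at h
    apply z.2.rep_nonzero
    have e0 := congrFun h 0
    have e1 := congrFun h 1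
    have e2 := congrFun h 2
    have e3 := congrFun h 3
    have hz0 : z.1 0 ≠ 0 := hz
    simp [hz0] at e0 e1 e2 e3
    funext i
    fin_cases i <;> assumption
  have morph : ∀ (S : Set ((Fin 1 → k) × PP k 3)) (T : Fin 4 → Poly k 1 3),
      (∀ j, IsHom (T j) 1) → (∀ z ∈ O, (fun j => ev z (T j)) ≠ 0) →
      IsMorphismProd (O ∩ S) (fun z => pt fun j => ev z (T j)) := by
    intro S T hT hne y hy
    refine ⟨1, T, hT, ?_, ?_⟩
    · exact Function.ne_iff.1 (hne y hy.1)
    · intro z hz _
      exact ⟨hne z hz.1, (pt_eq (hne z hz.1)).symm⟩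
  have hbot : (zeroLocus k (⊥ : Ideal (MvPolynomial (Fin 1) k))) = Set.univ := by
    ext x
    simp [mem_zeroLocus_iff]
  refine ⟨1, zeroLocus k ⊥, X 0, fun _ => b, O, O, fun z => pt fun j => ev z (F j),
    fun z => pt fun j => ev z (G j), ⟨⊥, Ideal.isPrime_bot, rfl⟩, ?_, by simp, ?_, hOo, hOo, ?_,
    morph _ F hFh neF, morph _ G hGh neG, ?_, ?_⟩
  · rw [hbot]
    trivial
  · refine ⟨fun _ => 0, ?_, ?_⟩
    · rw [hbot]
      trivial
    · simpa using hb.symm
  · refine ⟨pt ![0, 0, 0, 1], hb, ?_, ?_⟩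
    · rw [hbot]
      trivial
    · change eval (pt ![0, 0, 0, 1]).rep (poly _) = 0
      have hne : (![0, 0, 0, 1] : Fin 4 → k) ≠ 0 := by
        intro h0
        have := congrFun h0 3
        simp at this
      obtain ⟨c, hc, hrep⟩ := rep_mk _ hne
      rw [pt_eq hne, hrep, hom_eval_smul (poly_homog _), eval_poly]
      simp
  · rintro z ⟨hz, hz1, hz2⟩
    have hz0 : z.1 0 ≠ 0 := hz
    obtain ⟨c, hc, hrep⟩ := rep_mk _ (neF z hz)
    have hz2' : eval z.2.rep (poly (eval z.1 (X 0 : MvPolynomial (Fin 1) k))) = 0 := hz2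
    rw [eval_X, eval_poly] at hz2'
    refine ⟨⟨hz, by rw [hbot]; trivial, ?_⟩, ?_⟩
    · change eval (pt fun j => ev z (F j)).rep (poly 1) = 0
      rw [pt_eq (neF z hz), hrep, hom_eval_smul (poly_homog _), eval_poly]
      simp only [F0, F1, F2, F3]
      rw [mul_eq_zero]
      right
      linear_combination hz2'
    · change (pt fun j => ev (z.1, pt fun j => ev z (F j)) (G j)) = z.2
      rw [evG]
      have : (![z.1 0 * (pt fun j => ev z (F j)).rep 0, z.1 0 * (pt fun j => ev z (F j)).rep 1,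
        (pt fun j => ev z (F j)).rep 2, z.1 0 * (pt fun j => ev z (F j)).rep 3] : Fin 4 → k) =
        fun i => (z.1 0 * c) * z.2.rep i := by
        rw [pt_eq (neF z hz), hrep]
        funext i
        fin_cases i
        all_goals
          simp [F0, F1, F2, F3]
          try ring
      change pt (![z.1 0 * (pt fun j => ev z (F j)).rep 0, z.1 0 * (pt fun j => ev z (F j)).rep 1,
        (pt fun j => ev z (F j)).rep 2, z.1 0 * (pt fun j => ev z (F j)).rep 3] : Fin 4 → k) = _
      rw [this, pt_smul z.2.rep_nonzero (mul_ne_zero hz0 hc), pt_rep]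
  · rintro z ⟨hz, hz1, hz2⟩
    have hz0 : z.1 0 ≠ 0 := hz
    obtain ⟨c, hc, hrep⟩ := rep_mk _ (neG z hz)
    have hz2' : eval z.2.rep (poly 1) = 0 := hz2
    rw [eval_poly] at hz2'
    refine ⟨⟨hz, by rw [hbot]; trivial, ?_⟩, ?_⟩
    · change eval (pt fun j => ev z (G j)).rep
        (poly (eval z.1 (X 0 : MvPolynomial (Fin 1) k))) = 0
      rw [eval_X, pt_eq (neG z hz), hrep, hom_eval_smul (poly_homog _), eval_poly]
      simp only [G0, G1, G2, G3]
      rw [mul_eq_zero]
      right
      linear_combination (z.1 0 ^ 6) * hz2'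
    · change (pt fun j => ev (z.1, pt fun j => ev z (G j)) (F j)) = z.2
      rw [evF]
      change pt (![(pt fun j => ev z (G j)).rep 0, (pt fun j => ev z (G j)).rep 1,
        z.1 0 * (pt fun j => ev z (G j)).rep 2, (pt fun j => ev z (G j)).rep 3] : Fin 4 → k) = _
      have : (![(pt fun j => ev z (G j)).rep 0, (pt fun j => ev z (G j)).rep 1,
        z.1 0 * (pt fun j => ev z (G j)).rep 2, (pt fun j => ev z (G j)).rep 3] : Fin 4 → k) =
        fun i => (z.1 0 * c) * z.2.rep i := by
        rw [pt_eq (neG z hz), hrep]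
        funext i
        fin_cases i
        all_goals
          simp [G0, G1, G2, G3]
          try ring
      rw [this, pt_smul z.2.rep_nonzero (mul_ne_zero hz0 hc), pt_rep]

end Pool.Agent.X329.Triv
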